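import Pool.Agent.H61.CPT.Word

set_option autoImplicit false
set_option linter.unusedSectionVars false
set_option linter.unusedSimpArgs false

namespace Pool.Agent.H61.CPT

open Finset Function

variable {V : Type*} [Fintype V] [DecidableEq V]

lemma col4_of_col3 (G : SimpleGraph V) (b : V → ℕ) (I : Finset V)
    (hI2 : ∀ r ∈ I, ∀ r' ∈ I, b r = b r' → r = r')
    (hind : ∀ u ∈ I, ∀ v ∈ I, ¬ G.Adj u v) (c : V → Fin 3)
    (h1 : ∀ u v, u ∉ I → v ∉ I → u ≠ v → b u = b v → c u ≠ c v)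
    (h2 : ∀ u v, u ∉ I → v ∉ I → G.Adj u v → c u ≠ c v) :
    (G ⊔ SimpleGraph.fromRel (fun v w : V => b v = b w)).Colorable 4 := by
  refine ⟨SimpleGraph.Coloring.mk (fun v => if v ∈ I then (3 : Fin 4) else (c v).castSucc) ?_⟩
  intro u v huv
  have hlast : ∀ x : Fin 3, x.castSucc ≠ (3 : Fin 4) := by decide
  have hmain : u ≠ v ∧ (G.Adj u v ∨ b u = b v) := by
    rcases huv with h | h
    · exact ⟨h.ne, Or.inl h⟩
    · rw [SimpleGraph.fromRel_adj] at h
      exact ⟨h.1, Or.inr (h.2.elim id Eq.symm)⟩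
  obtain ⟨hne, h⟩ := hmain
  by_cases hu : u ∈ I
  · by_cases hv : v ∈ I
    · rcases h with h | h
      · exact absurd h (hind u hu v hv)
      · exact absurd (hI2 u hu v hv h) hne
    · simp only [hu, hv, if_true, if_false]
      exact (hlast _).symm
  · by_cases hv : v ∈ I
    · simp only [hu, hv, if_true, if_false]
      exact hlast _
    · simp only [hu, hv, if_false]
      intro e
      have e' : c u = c v := Fin.castSucc_injective 3 e
      rcases h with h | h
      · exact h2 u v hu hv h e'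
      · exact h1 u v hu hv hne h e'

/-- path version of the cycle-plus-triangles theorem, for linear forests. -/
lemma forest_colouring (G : SimpleGraph V) [DecidableRel G.Adj] (hdeg : ∀ v, G.degree v ≤ 2)
    (S : Finset V) (hhit : ∀ X : Finset V, X.Nonempty → (∀ v ∈ X, ∀ u, G.Adj v u → u ∈ X) →
      ∃ x ∈ X, x ∈ S) (J : Finset (Fin 3)) (s : Fin 3 → V) (bs : Finset (Finset V))
    (hcard : ∀ A ∈ bs, A.card = 3) (hdisj : ∀ A ∈ bs, ∀ B ∈ bs, A ≠ B → Disjoint A B)
    (hinj : Set.InjOn s (J : Set (Fin 3))) (hpin : ∀ j ∈ J, s j ∈ S)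
    (hone : ∀ A ∈ bs, ∀ i ∈ J, ∀ j ∈ J, s i ∈ A → s j ∈ A → i = j)
    (hcov : ∀ A ∈ bs, ∀ a ∈ A, a ∉ S ∨ ∃ j ∈ J, s j = a) :
    ∃ f : V → Fin 3, (∀ A ∈ bs, Set.InjOn f (A : Set V)) ∧ (∀ j ∈ J, f (s j) = j) ∧
      ∀ u v, u ∉ S → v ∉ S → G.Adj u v → f u ≠ f v := by
  obtain ⟨w, hnd, hmem, hcon⟩ := exists_word G hdeg _ (univ \ S) rfl
    (degenerate_of_hit G hdeg S hhit)
  have hmem' : ∀ v, v ∈ w ↔ v ∉ S := by
    intro v; rw [hmem]; simp
  obtain ⟨f, h1, h2, h3⟩ := exists_colouring J s bs w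
    ⟨hnd, hcard, hdisj, hinj, fun j hj h => (hmem' _).1 h (hpin j hj), hone, by
      intro A hA a ha
      rcases hcov A hA a ha with h | h
      · exact Or.inl ((hmem' a).2 h)
      · exact Or.inr h⟩
  refine ⟨f, h1, h2, ?_⟩
  intro u v hu hv huv
  rcases hcon u v (by simpa using hu) (by simpa using hv) huv with ⟨a, b, e⟩ | ⟨a, b, e⟩
  · exact h3 a u v b e
  · exact (h3 a v u b e).symm

section

variable (G : SimpleGraph V) [DecidableRel G.Adj] (b : V → ℕ) (I : Finset V)

/-- the block of `v` without its representative. -/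
def bl (v : V) : Finset V := univ.filter (fun w => b w = b v ∧ w ∉ I)

lemma bl_card (hblock : ∀ v, (univ.filter (fun w => b w = b v)).card = 4)
    (hI1 : ∀ v, ∃ r ∈ I, b r = b v) (hI2 : ∀ r ∈ I, ∀ r' ∈ I, b r = b r' → r = r') (v : V) :
    (bl b I v).card = 3 := by
  obtain ⟨r, hr, hrv⟩ := hI1 v
  have : bl b I v = (univ.filter (fun w => b w = b v)).erase r := by
    ext w
    simp only [bl, mem_filter, mem_univ, true_and, mem_erase]
    constructor
    · rintro ⟨h1, h2⟩
      exact ⟨by rintro rfl; exact h2 hr, h1⟩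
    · rintro ⟨h1, h2⟩
      exact ⟨h2, fun h => h1 (hI2 w h r hr (h2.trans hrv.symm))⟩
  rw [this, Finset.card_erase_of_mem (by simp [hrv]), hblock]

lemma bl_eq {u v : V} (h : b u = b v) : bl b I u = bl b I v := by
  unfold bl; rw [h]

lemma mem_bl {u v : V} : u ∈ bl b I v ↔ b u = b v ∧ u ∉ I := by
  simp [bl]

lemma bl_disj {u v : V} (h : bl b I u ≠ bl b I v) : Disjoint (bl b I u) (bl b I v) := by
  rw [Finset.disjoint_left]
  intro x hx hx'
  rw [mem_bl] at hx hx'
  exact h (bl_eq b I (hx.1.symm.trans hx'.1))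

end

/-- The family of three-blocks. -/
def fam (b : V → ℕ) (I : Finset V) : Finset (Finset V) := univ.image (bl b I)

lemma two_others (x : Fin 3) : ∃ y z : Fin 3, y ≠ x ∧ z ≠ x ∧ y ≠ z := by
  revert x; decide

lemma tri_nbr (G : SimpleGraph V) [DecidableRel G.Adj] (hdeg : ∀ v, G.degree v ≤ 2)
    {a b c : V} (hab : G.Adj a b) (hac : G.Adj a c) (hbc : b ≠ c) {x : V} (hx : G.Adj a x) :
    x = b ∨ x = c := by
  by_contra hcon
  push Not at hcon
  have : ({b, c, x} : Finset V) ⊆ G.neighborFinset a := by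
    intro y hy
    simp only [Finset.mem_insert, Finset.mem_singleton] at hy
    rw [SimpleGraph.mem_neighborFinset]
    rcases hy with rfl | rfl | rfl
    · exact hab
    · exact hac
    · exact hx
  have h3 := Finset.card_le_card this
  rw [SimpleGraph.card_neighborFinset_eq_degree] at h3
  have h4 : ({b, c, x} : Finset V).card = 3 :=
    Finset.card_eq_three.2 ⟨b, c, x, hbc, hcon.1.symm, hcon.2.symm, rfl⟩
  have := hdeg a
  omega

/-- data shared by the cases with an unhit triangle. -/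
structure TriData (G : SimpleGraph V) (b : V → ℕ) (I : Finset V) (a₀ b₀ c₀ : V) : Prop where
  hblock : ∀ v, (univ.filter (fun w => b w = b v)).card = 4
  hI1 : ∀ v, ∃ r ∈ I, b r = b v
  hI2 : ∀ r ∈ I, ∀ r' ∈ I, b r = b r' → r = r'
  hind : ∀ u ∈ I, ∀ v ∈ I, ¬ G.Adj u v
  haI : a₀ ∉ I
  hbI : b₀ ∉ I
  hcI : c₀ ∉ I
  hab : G.Adj a₀ b₀
  hac : G.Adj a₀ c₀
  hbc : G.Adj b₀ c₀
  hhit : ∀ X : Finset V, X.Nonempty → (∀ v ∈ X, ∀ u, G.Adj v u → u ∈ X) →
          ∃ x ∈ X, x ∈ I ∨ x = a₀ ∨ x = b₀ ∨ x = c₀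

lemma TriData.hcard {G : SimpleGraph V} {b : V → ℕ} {I : Finset V} {a₀ b₀ c₀ : V}
    (h : TriData G b I a₀ b₀ c₀) : ∀ A ∈ fam b I, A.card = 3 := by
  intro A hA
  obtain ⟨v, -, rfl⟩ := Finset.mem_image.1 hA
  exact bl_card b I h.hblock h.hI1 h.hI2 v

lemma fam_disj (b : V → ℕ) (I : Finset V) :
    ∀ A ∈ fam b I, ∀ B ∈ fam b I, A ≠ B → Disjoint A B := by
  intro A hA B hB hAB
  obtain ⟨u, -, rfl⟩ := Finset.mem_image.1 hA
  obtain ⟨v, -, rfl⟩ := Finset.mem_image.1 hB
  exact bl_disj b I hAB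

lemma fam_notI (b : V → ℕ) (I : Finset V) : ∀ A ∈ fam b I, ∀ a ∈ A, a ∉ I := by
  intro A hA a ha
  obtain ⟨u, -, rfl⟩ := Finset.mem_image.1 hA
  exact ((mem_bl b I).1 ha).2

lemma bl_mem_fam (b : V → ℕ) (I : Finset V) (v : V) : bl b I v ∈ fam b I :=
  Finset.mem_image_of_mem _ (mem_univ v)

lemma TriData.outside {G : SimpleGraph V} [DecidableRel G.Adj] {b : V → ℕ} {I : Finset V}
    {a₀ b₀ c₀ : V} (h : TriData G b I a₀ b₀ c₀) (hdeg : ∀ v, G.degree v ≤ 2) {u v : V}
    (huv : G.Adj u v) (hv : v ≠ a₀ ∧ v ≠ b₀ ∧ v ≠ c₀) : u ≠ a₀ ∧ u ≠ b₀ ∧ u ≠ c₀ := by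
  refine ⟨?_, ?_, ?_⟩
  · rintro rfl
    rcases tri_nbr G hdeg h.hab h.hac h.hbc.ne huv with e | e
    · exact hv.2.1 e
    · exact hv.2.2 e
  · rintro rfl
    rcases tri_nbr G hdeg h.hab.symm h.hbc h.hac.ne huv with e | e
    · exact hv.1 e
    · exact hv.2.2 e
  · rintro rfl
    rcases tri_nbr G hdeg h.hac.symm h.hbc.symm h.hab.ne huv with e | e
    · exact hv.1 e
    · exact hv.2.1 e

/-- extension of a colouring to the triangle -/
lemma TriData.extend {G : SimpleGraph V} [DecidableRel G.Adj] {b : V → ℕ} {I : Finset V}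
    {a₀ b₀ c₀ : V} (h : TriData G b I a₀ b₀ c₀) (hdeg : ∀ v, G.degree v ≤ 2)
    (f : V → Fin 3) (p q r : Fin 3) (hpq : p ≠ q) (hpr : p ≠ r) (hqr : q ≠ r)
    (hadj : ∀ u v, u ∉ I ∪ {a₀, b₀, c₀} → v ∉ I ∪ {a₀, b₀, c₀} → G.Adj u v → f u ≠ f v)
    (hblk : ∀ u v, u ∉ I → v ∉ I → u ≠ v → b u = b v →
      (fun v => if v = a₀ then p else if v = b₀ then q else if v = c₀ then r else f v) u ≠
      (fun v => if v = a₀ then p else if v = b₀ then q else if v = c₀ then r else f v) v) :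
    (G ⊔ SimpleGraph.fromRel (fun v w : V => b v = b w)).Colorable 4 := by
  refine col4_of_col3 G b I h.hI2 h.hind
    (fun v => if v = a₀ then p else if v = b₀ then q else if v = c₀ then r else f v) hblk ?_
  have hba : b₀ ≠ a₀ := h.hab.ne'
  have hca : c₀ ≠ a₀ := h.hac.ne'
  have hcb : c₀ ≠ b₀ := h.hbc.ne'
  intro u v hu hv huv
  by_cases hvT : v ≠ a₀ ∧ v ≠ b₀ ∧ v ≠ c₀
  · have huT := h.outside hdeg huv hvT
    simp only [hvT.1, hvT.2.1, hvT.2.2, huT.1, huT.2.1, huT.2.2, if_false]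
    refine hadj u v ?_ ?_ huv
    · simp [hu, huT.1, huT.2.1, huT.2.2]
    · simp [hv, hvT.1, hvT.2.1, hvT.2.2]
  · by_cases huT : u ≠ a₀ ∧ u ≠ b₀ ∧ u ≠ c₀
    · exact absurd (h.outside hdeg huv.symm huT) hvT
    · have hu' : u = a₀ ∨ u = b₀ ∨ u = c₀ := by tauto
      have hv' : v = a₀ ∨ v = b₀ ∨ v = c₀ := by tauto
      have hne := huv.ne
      rcases hu' with rfl | rfl | rfl <;> rcases hv' with rfl | rfl | rfl <;>
        first
        | exact absurd rfl hne
        | simp [hba, hca, hcb, hba.symm, hca.symm, hcb.symm, hpq, hpr, hqr, hpq.symm, hpr.symm,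
            hqr.symm]

/-- two vertices of the triangle in one block -/
lemma TriData.same_block {G : SimpleGraph V} [DecidableRel G.Adj] {b : V → ℕ} {I : Finset V}
    {a₀ b₀ c₀ : V} (h : TriData G b I a₀ b₀ c₀) (hdeg : ∀ v, G.degree v ≤ 2)
    (hbl : b a₀ = b b₀) :
    (G ⊔ SimpleGraph.fromRel (fun v w : V => b v = b w)).Colorable 4 := by
  have hba : b₀ ≠ a₀ := h.hab.ne'
  have hca : c₀ ≠ a₀ := h.hac.ne'
  have hcb : c₀ ≠ b₀ := h.hbc.ne'
  have hhit' : ∀ X : Finset V, X.Nonempty → (∀ v ∈ X, ∀ u, G.Adj v u → u ∈ X) →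
      ∃ x ∈ X, x ∈ I ∪ {a₀, b₀, c₀} := by
    intro X hX hcl
    obtain ⟨x, hx, hx'⟩ := h.hhit X hX hcl
    exact ⟨x, hx, by simp only [Finset.mem_union, Finset.mem_insert, Finset.mem_singleton]; exact hx'⟩
  have haA : a₀ ∈ bl b I a₀ := by simp [mem_bl, h.haI]
  have hbA : b₀ ∈ bl b I a₀ := by simp [mem_bl, h.hbI, hbl]
  have hcardA := h.hcard _ (bl_mem_fam b I a₀)
  by_cases hc : b c₀ = b a₀
  · -- the whole triangle is a block
    have hcA : c₀ ∈ bl b I a₀ := by simp [mem_bl, h.hcI, hc]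
    have hAe : bl b I a₀ = {a₀, b₀, c₀} := by
      symm
      apply Finset.eq_of_subset_of_card_le
      · intro x hx
        simp only [Finset.mem_insert, Finset.mem_singleton] at hx
        rcases hx with rfl | rfl | rfl <;> assumption
      · rw [hcardA, Finset.card_eq_three.2 ⟨a₀, b₀, c₀, hba.symm, hca.symm, hcb.symm, rfl⟩]
    obtain ⟨f, h1, -, h3⟩ := forest_colouring G hdeg (I ∪ {a₀, b₀, c₀}) hhit' ∅ (fun _ => a₀)
      ((fam b I).erase (bl b I a₀)) (fun A hA => h.hcard A (Finset.mem_of_mem_erase hA))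
      (fun A hA B hB => fam_disj b I A (Finset.mem_of_mem_erase hA) B (Finset.mem_of_mem_erase hB))
      (by simp) (by simp) (by simp) (by
        intro A hA a ha
        left
        have h1 := fam_notI b I A (Finset.mem_of_mem_erase hA) a ha
        have h2 : a ∉ bl b I a₀ := fun h' => (Finset.disjoint_left.1 (fam_disj b I A
          (Finset.mem_of_mem_erase hA) _ (bl_mem_fam b I a₀) (Finset.ne_of_mem_erase hA))) ha h'
        rw [hAe] at h2
        rw [Finset.mem_union]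
        tauto)
    apply h.extend hdeg f 0 1 2 (by decide) (by decide) (by decide) h3
    intro u v hu hv hne huv
    by_cases hub : b u = b a₀
    · have huA : u ∈ bl b I a₀ := by simp [mem_bl, hub, hu]
      have hvA : v ∈ bl b I a₀ := by simp [mem_bl, ← huv, hub, hv]
      rw [hAe] at huA hvA
      simp only [Finset.mem_insert, Finset.mem_singleton] at huA hvA
      rcases huA with rfl | rfl | rfl <;> rcases hvA with rfl | rfl | rfl <;>
        first
        | exact absurd rfl hne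
        | simp [hba, hca, hcb, hba.symm, hca.symm, hcb.symm]
    · have hT : ∀ x, b x = b u → x ≠ a₀ ∧ x ≠ b₀ ∧ x ≠ c₀ := by
        intro x hx
        refine ⟨?_, ?_, ?_⟩
        · rintro rfl; exact hub hx.symm
        · rintro rfl; exact hub (hx.symm.trans hbl.symm)
        · rintro rfl; exact hub (hx.symm.trans hc)
      have hu' := hT u rfl
      have hv' := hT v huv.symm
      simp only [hu'.1, hu'.2.1, hu'.2.2, hv'.1, hv'.2.1, hv'.2.2, if_false]
      intro e
      refine hne (h1 (bl b I u) (Finset.mem_erase.2 ⟨?_, bl_mem_fam b I u⟩) ?_ ?_ e)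
      · intro e'
        have : u ∈ bl b I a₀ := by rw [← e']; simp [mem_bl, hu]
        exact hub ((mem_bl b I).1 this).1
      · simp [mem_bl, hu]
      · simp [mem_bl, hv, huv]
  · -- exactly two vertices of the triangle in the block
    obtain ⟨y₁, y₂, hAe', g1, g2, g3⟩ := exists_triple hcardA haA
    have hexy : ∃ y, bl b I a₀ = {a₀, b₀, y} ∧ a₀ ≠ y ∧ b₀ ≠ y := by
      have := hbA
      rw [hAe'] at this
      simp only [Finset.mem_insert, Finset.mem_singleton] at this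
      rcases this with h | h | h
      · exact absurd h hba
      · exact ⟨y₂, by rw [h]; exact hAe', g2, by rw [h]; exact g3⟩
      · refine ⟨y₁, ?_, g1, by rw [h]; exact g3.symm⟩
        rw [h, hAe']; ext x; simp only [Finset.mem_insert, Finset.mem_singleton]; tauto
    obtain ⟨y, hAe, hay, hby⟩ := hexy
    have hcC : c₀ ∈ bl b I c₀ := by simp [mem_bl, h.hcI]
    have hcardC := h.hcard _ (bl_mem_fam b I c₀)
    obtain ⟨c₁, c₂, hCe, k1, k2, k3⟩ := exists_triple hcardC hcC
    have hyA : y ∈ bl b I a₀ := by rw [hAe]; simp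
    have hc1C : c₁ ∈ bl b I c₀ := by rw [hCe]; simp
    have hc2C : c₂ ∈ bl b I c₀ := by rw [hCe]; simp
    have hneAC : bl b I a₀ ≠ bl b I c₀ := by
      intro e
      rw [← e, mem_bl] at hcC
      exact hc hcC.1
    have hdAC := fam_disj b I _ (bl_mem_fam b I a₀) _ (bl_mem_fam b I c₀) hneAC
    have hyc1 : y ≠ c₁ := by rintro rfl; exact (Finset.disjoint_left.1 hdAC) hyA hc1C
    have hyc2 : y ≠ c₂ := by rintro rfl; exact (Finset.disjoint_left.1 hdAC) hyA hc2C
    set rest := ((fam b I).erase (bl b I a₀)).erase (bl b I c₀) with hrest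
    have hrmem : ∀ A ∈ rest, A ∈ fam b I ∧ A ≠ bl b I a₀ ∧ A ≠ bl b I c₀ := by
      intro A hA
      have h1 := Finset.mem_erase.1 hA
      have h2 := Finset.mem_erase.1 h1.2
      exact ⟨h2.2, h2.1, h1.1⟩
    have hrA : ∀ A ∈ rest, ∀ x ∈ bl b I a₀, x ∉ A := fun A hA x hx hxA =>
      (Finset.disjoint_left.1 (fam_disj b I A (hrmem A hA).1 _ (bl_mem_fam b I a₀)
        (hrmem A hA).2.1)) hxA hx
    have hrC : ∀ A ∈ rest, ∀ x ∈ bl b I c₀, x ∉ A := fun A hA x hx hxA =>
      (Finset.disjoint_left.1 (fam_disj b I A (hrmem A hA).1 _ (bl_mem_fam b I c₀)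
        (hrmem A hA).2.2)) hxA hx
    have hnew : ∀ A ∈ rest, Disjoint ({y, c₁, c₂} : Finset V) A := by
      intro A hA
      rw [Finset.disjoint_left]
      intro x hx
      simp only [Finset.mem_insert, Finset.mem_singleton] at hx
      rcases hx with rfl | rfl | rfl
      · exact hrA A hA _ hyA
      · exact hrC A hA _ hc1C
      · exact hrC A hA _ hc2C
    have hac' : a₀ ∉ bl b I c₀ := fun h' => (Finset.disjoint_left.1 hdAC) haA h'
    have hbc' : b₀ ∉ bl b I c₀ := fun h' => (Finset.disjoint_left.1 hdAC) hbA h'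
    have hcA' : c₀ ∉ bl b I a₀ := fun h' => (Finset.disjoint_left.1 hdAC) h' hcC
    have hcy : c₀ ≠ y := by rintro rfl; exact hcA' hyA
    have hc1a : c₁ ≠ a₀ := by rintro rfl; exact hac' hc1C
    have hc2a : c₂ ≠ a₀ := by rintro rfl; exact hac' hc2C
    have hc1b : c₁ ≠ b₀ := by rintro rfl; exact hbc' hc1C
    have hc2b : c₂ ≠ b₀ := by rintro rfl; exact hbc' hc2C
    obtain ⟨f, h1, -, h3⟩ := forest_colouring G hdeg (I ∪ {a₀, b₀, c₀}) hhit' ∅ (fun _ => a₀)
      (insert {y, c₁, c₂} rest) (by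
        intro A hA
        rcases Finset.mem_insert.1 hA with rfl | hA
        · exact Finset.card_eq_three.2 ⟨y, c₁, c₂, hyc1, hyc2, k3, rfl⟩
        · exact h.hcard A (hrmem A hA).1) (by
        intro A hA B hB hAB
        rcases Finset.mem_insert.1 hA with rfl | hA
        · rcases Finset.mem_insert.1 hB with rfl | hB
          · exact absurd rfl hAB
          · exact hnew B hB
        · rcases Finset.mem_insert.1 hB with rfl | hB
          · exact (hnew A hA).symm
          · exact fam_disj b I A (hrmem A hA).1 B (hrmem B hB).1 hAB) (by simp) (by simp)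
      (by simp) (by
        intro A hA a ha
        left
        rcases Finset.mem_insert.1 hA with rfl | hA
        · simp only [Finset.mem_insert, Finset.mem_singleton] at ha
          rcases ha with rfl | rfl | rfl
          · have := ((mem_bl b I).1 hyA).2
            simp [this, hay.symm, hby.symm, hcy.symm]
          · have := ((mem_bl b I).1 hc1C).2
            simp [this, hc1a, hc1b, k1.symm]
          · have := ((mem_bl b I).1 hc2C).2
            simp [this, hc2a, hc2b, k2.symm]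
        · have h1 := fam_notI b I A (hrmem A hA).1 a ha
          have e1 : a ≠ a₀ := by rintro rfl; exact hrA A hA _ haA ha
          have e2 : a ≠ b₀ := by rintro rfl; exact hrA A hA _ hbA ha
          have e3 : a ≠ c₀ := by rintro rfl; exact hrC A hA _ hcC ha
          simp [h1, e1, e2, e3])
    obtain ⟨p, q, hp, hq, hpq⟩ := two_others (f y)
    have hinj := h1 {y, c₁, c₂} (Finset.mem_insert_self _ _)
    have f1 : f y ≠ f c₁ := fun e => hyc1 (hinj (by simp) (by simp) e)
    have f2 : f y ≠ f c₂ := fun e => hyc2 (hinj (by simp) (by simp) e)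
    have f3 : f c₁ ≠ f c₂ := fun e => k3 (hinj (by simp) (by simp) e)
    apply h.extend hdeg f p q (f y) hpq hp hq h3
    intro u v hu hv hne huv
    by_cases hub : b u = b a₀
    · have huA : u ∈ bl b I a₀ := by simp [mem_bl, hub, hu]
      have hvA : v ∈ bl b I a₀ := by simp [mem_bl, ← huv, hub, hv]
      rw [hAe] at huA hvA
      simp only [Finset.mem_insert, Finset.mem_singleton] at huA hvA
      rcases huA with rfl | rfl | rfl <;> rcases hvA with rfl | rfl | rfl <;>
        first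
        | exact absurd rfl hne
        | simp [hba, hca, hcb, hba.symm, hca.symm, hcb.symm, hay, hby, hcy, hay.symm, hby.symm,
            hcy.symm, hpq, hp, hq, hpq.symm, hp.symm, hq.symm]
    · by_cases huc : b u = b c₀
      · have huC : u ∈ bl b I c₀ := by simp [mem_bl, huc, hu]
        have hvC : v ∈ bl b I c₀ := by simp [mem_bl, ← huv, huc, hv]
        rw [hCe] at huC hvC
        simp only [Finset.mem_insert, Finset.mem_singleton] at huC hvC
        rcases huC with rfl | rfl | rfl <;> rcases hvC with rfl | rfl | rfl <;>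
          first
          | exact absurd rfl hne
          | simp [hba, hca, hcb, hba.symm, hca.symm, hcb.symm, k1, k2, k3, k1.symm, k2.symm,
              k3.symm, hc1a, hc2a, hc1b, hc2b, f1, f2, f3, f1.symm, f2.symm, f3.symm]
      · have hT : ∀ x, b x = b u → x ≠ a₀ ∧ x ≠ b₀ ∧ x ≠ c₀ := by
          intro x hx
          refine ⟨?_, ?_, ?_⟩
          · rintro rfl; exact hub hx.symm
          · rintro rfl; exact hub (hx.symm.trans hbl.symm)
          · rintro rfl; exact huc hx.symm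
        have hu' := hT u rfl
        have hv' := hT v huv.symm
        simp only [hu'.1, hu'.2.1, hu'.2.2, hv'.1, hv'.2.1, hv'.2.2, if_false]
        intro e
        refine hne (h1 (bl b I u) (Finset.mem_insert_of_mem (Finset.mem_erase.2
          ⟨?_, Finset.mem_erase.2 ⟨?_, bl_mem_fam b I u⟩⟩)) ?_ ?_ e)
        · intro e'
          have : u ∈ bl b I c₀ := by rw [← e']; simp [mem_bl, hu]
          exact huc ((mem_bl b I).1 this).1
        · intro e'
          have : u ∈ bl b I a₀ := by rw [← e']; simp [mem_bl, hu]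
          exact hub ((mem_bl b I).1 this).1
        · simp [mem_bl, hu]
        · simp [mem_bl, hv, huv]

/-- three different blocks. -/
lemma TriData.diff_block {G : SimpleGraph V} [DecidableRel G.Adj] {b : V → ℕ} {I : Finset V}
    {a₀ b₀ c₀ : V} (h : TriData G b I a₀ b₀ c₀) (hdeg : ∀ v, G.degree v ≤ 2)
    (h1 : b a₀ ≠ b b₀) (h2 : b a₀ ≠ b c₀) (h3 : b b₀ ≠ b c₀) :
    (G ⊔ SimpleGraph.fromRel (fun v w : V => b v = b w)).Colorable 4 := by
  have hba : b₀ ≠ a₀ := h.hab.ne'
  have hca : c₀ ≠ a₀ := h.hac.ne'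
  have hcb : c₀ ≠ b₀ := h.hbc.ne'
  have hhit' : ∀ X : Finset V, X.Nonempty → (∀ v ∈ X, ∀ u, G.Adj v u → u ∈ X) →
      ∃ x ∈ X, x ∈ I ∪ {a₀, b₀, c₀} := by
    intro X hX hcl
    obtain ⟨x, hx, hx'⟩ := h.hhit X hX hcl
    exact ⟨x, hx, by simp only [Finset.mem_union, Finset.mem_insert, Finset.mem_singleton]; exact hx'⟩
  have hbs : ∀ i j : Fin 3, b (![a₀, b₀, c₀] i) = b (![a₀, b₀, c₀] j) → i = j := by
    intro i j
    fin_cases i <;> fin_cases j <;> simp [h1, h2, h3, h1.symm, h2.symm, h3.symm]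
  obtain ⟨f, f1, f2, f3⟩ := forest_colouring G hdeg (I ∪ {a₀, b₀, c₀}) hhit' univ ![a₀, b₀, c₀]
    (fam b I) h.hcard (fam_disj b I) (by
      intro i _ j _ e
      exact hbs i j (by rw [e])) (by
      intro j _
      fin_cases j <;> simp) (by
      intro A hA i _ j _ hi hj
      obtain ⟨v, -, rfl⟩ := Finset.mem_image.1 hA
      rw [mem_bl] at hi hj
      exact hbs i j (hi.1.trans hj.1.symm)) (by
      intro A hA a ha
      by_cases haT : a = a₀ ∨ a = b₀ ∨ a = c₀
      · right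
        rcases haT with rfl | rfl | rfl
        · exact ⟨0, mem_univ _, rfl⟩
        · exact ⟨1, mem_univ _, rfl⟩
        · exact ⟨2, mem_univ _, rfl⟩
      · left
        have := fam_notI b I A hA a ha
        rw [Finset.mem_union]
        simp only [Finset.mem_insert, Finset.mem_singleton]
        tauto)
  have e0 : f a₀ = 0 := f2 0 (mem_univ _)
  have e1 : f b₀ = 1 := f2 1 (mem_univ _)
  have e2 : f c₀ = 2 := f2 2 (mem_univ _)
  apply h.extend hdeg f 0 1 2 (by decide) (by decide) (by decide) f3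
  intro u v hu hv hne huv
  have hsimp : ∀ x, (if x = a₀ then (0 : Fin 3) else if x = b₀ then 1 else if x = c₀ then 2
      else f x) = f x := by
    intro x
    by_cases hx : x = a₀
    · rw [if_pos hx, hx, e0]
    · rw [if_neg hx]
      by_cases hx : x = b₀
      · rw [if_pos hx, hx, e1]
      · rw [if_neg hx]
        by_cases hx : x = c₀
        · rw [if_pos hx, hx, e2]
        · rw [if_neg hx]
  simp only [hsimp]
  intro e
  exact hne (f1 _ (bl_mem_fam b I v) (by simp [mem_bl, huv, hu]) (by simp [mem_bl, hv]) e)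

lemma TriData.rot {G : SimpleGraph V} {b : V → ℕ} {I : Finset V}
    {a₀ b₀ c₀ : V} (h : TriData G b I a₀ b₀ c₀) : TriData G b I b₀ c₀ a₀ :=
  ⟨h.hblock, h.hI1, h.hI2, h.hind, h.hbI, h.hcI, h.haI, h.hbc, h.hab.symm, h.hac.symm, by
    intro X hX hcl
    obtain ⟨x, hx, hx'⟩ := h.hhit X hX hcl
    exact ⟨x, hx, by tauto⟩⟩

theorem assemble (G : SimpleGraph V) [DecidableRel G.Adj] (hdeg : ∀ v, G.degree v ≤ 2)
    (b : V → ℕ) (hblock : ∀ v, (univ.filter (fun w => b w = b v)).card = 4)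
    (I : Finset V) (hI1 : ∀ v, ∃ r ∈ I, b r = b v)
    (hI2 : ∀ r ∈ I, ∀ r' ∈ I, b r = b r' → r = r')
    (hind : ∀ u ∈ I, ∀ v ∈ I, ¬ G.Adj u v)
    (hhit : (∀ X : Finset V, X.Nonempty → (∀ v ∈ X, ∀ u, G.Adj v u → u ∈ X) → ∃ x ∈ X, x ∈ I) ∨
      ∃ a₀ b₀ c₀, a₀ ∉ I ∧ b₀ ∉ I ∧ c₀ ∉ I ∧ G.Adj a₀ b₀ ∧ G.Adj a₀ c₀ ∧ G.Adj b₀ c₀ ∧
        ∀ X : Finset V, X.Nonempty → (∀ v ∈ X, ∀ u, G.Adj v u → u ∈ X) →
          ∃ x ∈ X, x ∈ I ∨ x = a₀ ∨ x = b₀ ∨ x = c₀) :
    (G ⊔ SimpleGraph.fromRel (fun v w : V => b v = b w)).Colorable 4 := by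
  rcases hhit with hhit | ⟨a₀, b₀, c₀, haI, hbI, hcI, hab, hac, hbc, hhit⟩
  · rcases isEmpty_or_nonempty V with hV | hV
    · exact ⟨SimpleGraph.Coloring.mk (fun _ => 0) (fun {v} => (IsEmpty.false v).elim)⟩
    have hcard : ∀ A ∈ fam b I, A.card = 3 := by
      intro A hA
      obtain ⟨v, -, rfl⟩ := Finset.mem_image.1 hA
      exact bl_card b I hblock hI1 hI2 v
    obtain ⟨f, h1, -, h3⟩ := forest_colouring G hdeg I hhit ∅ (fun _ => Classical.arbitrary V)
      (fam b I) hcard (fam_disj b I) (by simp) (by simp) (by simp)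
      (fun A hA a ha => Or.inl (fam_notI b I A hA a ha))
    refine col4_of_col3 G b I hI2 hind f ?_ (fun u v hu hv huv => h3 u v hu hv huv)
    intro u v hu hv hne hb e
    exact hne (h1 _ (bl_mem_fam b I v) (by simp [mem_bl, hb, hu]) (by simp [mem_bl, hv]) e)
  · have h : TriData G b I a₀ b₀ c₀ :=
      ⟨hblock, hI1, hI2, hind, haI, hbI, hcI, hab, hac, hbc, hhit⟩
    by_cases h1 : b a₀ = b b₀
    · exact h.same_block hdeg h1
    by_cases h2 : b a₀ = b c₀
    · exact h.rot.rot.same_block hdeg h2.symm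
    by_cases h3 : b b₀ = b c₀
    · exact h.rot.same_block hdeg h3
    exact h.diff_block hdeg h1 h2 h3

end Pool.Agent.H61.CPT
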