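import Mathlib

set_option autoImplicit false

/-! Parity identities in `M₂(𝔽₂)` for the colouring of a word with rainbow blocks. -/

namespace Pool.Agent.H61.CPT

open Finset Function

abbrev M := Matrix (Fin 2) (Fin 2) (ZMod 2)

/-- three nilpotents with `N a * N b + N b * N a = 1` for `a ≠ b` and sum `1`. -/
def N : Fin 3 → M := ![!![0, 1; 0, 0], !![0, 0; 1, 0], !![1, 1; 1, 1]]

/-- the rotation. -/
def om : M := !![0, 1; 1, 1]

lemma N_sq (a : Fin 3) : N a * N a = 0 := by
  revert a; decide

lemma N_anti (a b : Fin 3) : N a * N b + N b * N a = if a ≠ b then 1 else 0 := by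
  revert a b; decide

lemma N_sum : ∑ a, N a = 1 := by decide

lemma om_N (a : Fin 3) : om * N a = N (a + 1) * om := by
  revert a; decide

lemma om_trace : om.trace = 1 := by decide

lemma om_det : IsUnit om := by
  rw [Matrix.isUnit_iff_isUnit_det]
  have : om.det = 1 := by decide
  rw [this]; exact isUnit_one

variable {α : Type*} [Fintype α] [DecidableEq α]

/-- the product along a word. -/
def P (w : List α) (f : α → Fin 3) : M := (w.map (fun a => N (f a))).prod

lemma P_nil (f : α → Fin 3) : P [] f = 1 := by simp [P]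

lemma P_cons (a : α) (w : List α) (f : α → Fin 3) : P (a :: w) f = N (f a) * P w f := by
  simp [P]

lemma P_append (w w' : List α) (f : α → Fin 3) : P (w ++ w') f = P w f * P w' f := by
  simp [P]

lemma P_update (w : List α) (f : α → Fin 3) (u : α) (x : Fin 3) (h : u ∉ w) :
    P w (update f u x) = P w f := by
  unfold P
  congr 1
  apply List.map_congr_left
  intro a ha
  rw [update_of_ne]
  rintro rfl; exact h ha

/-- the twisted sum. -/
def Z (Φ : (α → Fin 3) → ZMod 2) (w : List α) : ZMod 2 :=
  ∑ f : α → Fin 3, Φ f * (om * P w f).trace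

lemma two_zero (x : ZMod 2) : x + x = 0 := by
  revert x; decide

lemma three_one (x : ZMod 2) : (3 : ℕ) • x = x := by
  revert x; decide

lemma sum_update (F : (α → Fin 3) → ZMod 2) (u : α) :
    ∑ f : α → Fin 3, ∑ x : Fin 3, F (update f u x) = ∑ f, F f := by
  rw [Finset.sum_comm]
  have key : ∀ x : Fin 3, ∑ f : α → Fin 3, F (update f u x) =
      ∑ f ∈ univ.filter (fun f : α → Fin 3 => f u = x), F f := by
    intro x
    have h1 : ∑ f : α → Fin 3, F (update f u x) =
        ∑ g ∈ univ.filter (fun f : α → Fin 3 => f u = x),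
          ∑ f ∈ univ.filter (fun f : α → Fin 3 => update f u x = g), F (update f u x) := by
      rw [← Finset.sum_fiberwise_of_maps_to (s := (univ : Finset (α → Fin 3)))
        (t := univ.filter (fun f : α → Fin 3 => f u = x)) (g := fun f => update f u x)]
      intro f _
      simp
    rw [h1]
    apply Finset.sum_congr rfl
    intro g hg
    rw [mem_filter] at hg
    have h2 : ∀ f ∈ univ.filter (fun f : α → Fin 3 => update f u x = g), F (update f u x) = F g := by
      intro f hf
      rw [(mem_filter.1 hf).2]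
    rw [Finset.sum_congr rfl h2, Finset.sum_const]
    have h3 : (univ.filter (fun f : α → Fin 3 => update f u x = g)).card = 3 := by
      have : univ.filter (fun f : α → Fin 3 => update f u x = g) =
          (univ : Finset (Fin 3)).image (fun y => update g u y) := by
        ext f
        simp only [mem_filter, mem_univ, true_and, mem_image]
        constructor
        · intro h
          refine ⟨f u, ?_⟩
          rw [← h]
          simp
        · rintro ⟨y, rfl⟩
          rw [update_idem, ← hg.2, update_eq_self]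
      rw [this, Finset.card_image_of_injective]
      · simp
      · intro y y' h
        have := congrFun h u
        simpa using this
    rw [h3, three_one]
  rw [Finset.sum_congr rfl (fun x _ => key x)]
  rw [← Finset.sum_fiberwise_of_maps_to (s := (univ : Finset (α → Fin 3)))
        (t := (univ : Finset (Fin 3))) (g := fun f => f u)]
  intro f _; simp

/-- independence of a coordinate. -/
def Ind (Φ : (α → Fin 3) → ZMod 2) (u : α) : Prop := ∀ f x, Φ (update f u x) = Φ f

/-- summing out a letter outside the word. -/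
lemma Z_sumout (Φ Φ' : (α → Fin 3) → ZMod 2) (w : List α) (u : α) (hu : u ∉ w)
    (h : ∀ f, ∑ x, Φ (update f u x) = Φ' f) : Z Φ w = Z Φ' w := by
  unfold Z
  rw [← sum_update _ u]
  apply Finset.sum_congr rfl
  intro f _
  rw [← h f, Finset.sum_mul]
  apply Finset.sum_congr rfl
  intro x _
  rw [P_update _ _ _ _ hu]

/-- deleting a free letter. -/
lemma Z_delete (Φ : (α → Fin 3) → ZMod 2) (w₁ w₂ : List α) (u : α) (hu₁ : u ∉ w₁) (hu₂ : u ∉ w₂)
    (hΦ : Ind Φ u) : Z Φ (w₁ ++ u :: w₂) = Z Φ (w₁ ++ w₂) := by
  unfold Z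
  rw [← sum_update _ u]
  apply Finset.sum_congr rfl
  intro f _
  have h1 : ∀ x, Φ (update f u x) * (om * P (w₁ ++ u :: w₂) (update f u x)).trace =
      Φ f * (om * (P w₁ f * (N x * P w₂ f))).trace := by
    intro x
    rw [hΦ, P_append, P_cons, P_update _ _ _ _ hu₁, P_update _ _ _ _ hu₂, update_self]
  rw [Finset.sum_congr rfl (fun x _ => h1 x), ← Finset.mul_sum, P_append]
  congr 1
  rw [← Matrix.trace_sum, ← Finset.mul_sum, ← Finset.mul_sum, ← Finset.sum_mul, N_sum, one_mul]

lemma Z_add (Φ Ψ : (α → Fin 3) → ZMod 2) (w : List α) :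
    Z (fun f => Φ f + Ψ f) w = Z Φ w + Z Ψ w := by
  unfold Z
  rw [← Finset.sum_add_distrib]
  apply Finset.sum_congr rfl
  intro f _
  ring

lemma Z_congr {Φ Ψ : (α → Fin 3) → ZMod 2} (w : List α) (h : ∀ f, Φ f = Ψ f) :
    Z Φ w = Z Ψ w := by
  have : Φ = Ψ := funext h
  rw [this]

/-- the swap rule. -/
lemma Z_swap (Φ : (α → Fin 3) → ZMod 2) (w₁ w₂ : List α) (u v : α) :
    Z Φ (w₁ ++ u :: v :: w₂) + Z Φ (w₁ ++ v :: u :: w₂) =
      Z (fun f => Φ f * (if f u ≠ f v then 1 else 0)) (w₁ ++ w₂) := by
  unfold Z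
  rw [← Finset.sum_add_distrib]
  apply Finset.sum_congr rfl
  intro f _
  rw [← mul_add, mul_assoc]
  congr 1
  rw [← Matrix.trace_add, ← mul_add]
  simp only [P_append, P_cons]
  rw [← mul_add, ← mul_assoc (N (f u)), ← mul_assoc (N (f v)), ← add_mul, N_anti]
  split_ifs <;> simp

/-- rotation invariance. -/
lemma Z_rot (Φ : (α → Fin 3) → ZMod 2) (w : List α) :
    Z (fun f => Φ (fun a => f a + 1)) w = Z Φ w := by
  unfold Z
  have e : (α → Fin 3) ≃ (α → Fin 3) :=
    Equiv.arrowCongr (Equiv.refl α) (Equiv.addRight (1 : Fin 3))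
  rw [← Equiv.sum_comp (Equiv.arrowCongr (Equiv.refl α) (Equiv.addRight (1 : Fin 3)))
    (fun f => Φ f * (om * P w f).trace)]
  apply Finset.sum_congr rfl
  intro f _
  have h1 : ∀ a, (Equiv.arrowCongr (Equiv.refl α) (Equiv.addRight (1 : Fin 3))) f a = f a + 1 := by
    intro a; rfl
  have h2 : (Equiv.arrowCongr (Equiv.refl α) (Equiv.addRight (1 : Fin 3))) f = fun a => f a + 1 :=
    funext h1
  rw [h2]
  congr 1
  have h3 : ∀ w : List α, om * P w f = P w (fun a => f a + 1) * om := by
    intro w
    induction w with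
    | nil => simp [P_nil]
    | cons a w ih => rw [P_cons, P_cons, ← mul_assoc, om_N, mul_assoc, ih, mul_assoc]
  rw [h3, Matrix.trace_mul_comm]

end Pool.Agent.H61.CPT
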