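import Pool.Agent.H61.CPT.Assemble

set_option autoImplicit false
set_option linter.unusedSectionVars false
set_option linter.unusedSimpArgs false

namespace Pool.Agent.H61.CPT

open Finset Function

variable {V : Type*} [Fintype V] [DecidableEq V] {C : Type*} [DecidableEq C]

/-- independent transversals -/
def IT (G : SimpleGraph V) (b : V → ℕ) (I : Finset V) : Prop :=
  (∀ v, ∃ r ∈ I, b r = b v) ∧ (∀ r ∈ I, ∀ r' ∈ I, b r = b r' → r = r') ∧
    (∀ u ∈ I, ∀ v ∈ I, ¬ G.Adj u v)

lemma step_valid {G : SimpleGraph V} {b : V → ℕ} {κ : V → C}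
    (hκ : ∀ u v, G.Adj u v → κ u = κ v) {m : ℕ}
    (hm : ∀ I, IT G b I → (I.image κ).card ≤ m) {I : Finset V} {v r : V} (hI : IT G b I)
    (hD : κ v ∉ I.image κ) (hc : (I.image κ).card = m) (hr : r ∈ I) (hb : b r = b v) :
    IT G b (insert v (I.erase r)) ∧ κ r ∉ (insert v (I.erase r)).image κ ∧
      ((insert v (I.erase r)).image κ).card = m ∧ (∀ r' ∈ I, κ r' = κ r → r' = r) ∧
      (insert v (I.erase r)).image κ = insert (κ v) ((I.image κ).erase (κ r)) := by
  have hvI : v ∉ I := fun h => hD (Finset.mem_image_of_mem _ h)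
  have hIT : IT G b (insert v (I.erase r)) := by
    refine ⟨?_, ?_, ?_⟩
    · intro x
      obtain ⟨r0, hr0, e⟩ := hI.1 x
      by_cases h : r0 = r
      · subst h
        exact ⟨v, Finset.mem_insert_self _ _, hb ▸ e⟩
      · exact ⟨r0, Finset.mem_insert_of_mem (Finset.mem_erase.2 ⟨h, hr0⟩), e⟩
    · intro p hp q hq e
      rcases Finset.mem_insert.1 hp with hp' | hp'
      · rcases Finset.mem_insert.1 hq with hq' | hq'
        · rw [hp', hq']
        · have := hI.2.1 r hr q (Finset.mem_of_mem_erase hq') (hb.trans (hp' ▸ e))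
          exact absurd this.symm (Finset.ne_of_mem_erase hq')
      · rcases Finset.mem_insert.1 hq with hq' | hq'
        · have := hI.2.1 r hr p (Finset.mem_of_mem_erase hp') (hb.trans (hq' ▸ e.symm))
          exact absurd this.symm (Finset.ne_of_mem_erase hp')
        · exact hI.2.1 p (Finset.mem_of_mem_erase hp') q (Finset.mem_of_mem_erase hq') e
    · intro p hp q hq hadj
      rcases Finset.mem_insert.1 hp with hp' | hp'
      · rcases Finset.mem_insert.1 hq with hq' | hq'
        · rw [hp', hq'] at hadj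
          exact G.irrefl hadj
        · exact hD (by
            rw [← hp', hκ _ _ hadj]
            exact Finset.mem_image_of_mem _ (Finset.mem_of_mem_erase hq'))
      · rcases Finset.mem_insert.1 hq with hq' | hq'
        · exact hD (by
            rw [← hq', ← hκ _ _ hadj]
            exact Finset.mem_image_of_mem _ (Finset.mem_of_mem_erase hp'))
        · exact hI.2.2 p (Finset.mem_of_mem_erase hp') q (Finset.mem_of_mem_erase hq') hadj
  have huniq : ∀ r' ∈ I, κ r' = κ r → r' = r := by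
    intro r' hr' e
    by_contra hne
    have : (insert v (I.erase r)).image κ = insert (κ v) (I.image κ) := by
      rw [Finset.image_insert]
      congr 1
      ext D
      simp only [Finset.mem_image, Finset.mem_erase]
      constructor
      · rintro ⟨x, hx, rfl⟩
        exact ⟨x, hx.2, rfl⟩
      · rintro ⟨x, hx, rfl⟩
        by_cases hxr : x = r
        · exact ⟨r', ⟨hne, hr'⟩, by rw [e, hxr]⟩
        · exact ⟨x, ⟨hxr, hx⟩, rfl⟩
    have h2 := hm _ hIT
    rw [this, Finset.card_insert_of_notMem hD, hc] at h2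
    omega
  have himg : (insert v (I.erase r)).image κ = insert (κ v) ((I.image κ).erase (κ r)) := by
    rw [Finset.image_insert]
    congr 1
    ext D
    simp only [Finset.mem_image, Finset.mem_erase]
    constructor
    · rintro ⟨x, hx, rfl⟩
      exact ⟨fun e => hx.1 (huniq x hx.2 e), x, hx.2, rfl⟩
    · rintro ⟨hne, x, hx, rfl⟩
      exact ⟨x, ⟨fun e => hne (by rw [e]), hx⟩, rfl⟩
  refine ⟨hIT, ?_, ?_, huniq, himg⟩
  · rw [himg]
    simp only [Finset.mem_insert, Finset.mem_erase, ne_eq, not_true_eq_false, false_and, or_false]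
    intro e
    exact hD (by rw [← e]; exact Finset.mem_image_of_mem _ hr)
  · rw [himg, Finset.card_insert_of_notMem, Finset.card_erase_of_mem (Finset.mem_image_of_mem _ hr),
      hc]
    · have : 0 < (I.image κ).card := Finset.card_pos.2 ⟨_, Finset.mem_image_of_mem _ hr⟩
      omega
    · intro h
      exact hD (Finset.mem_of_mem_erase h)

/-- hole moves -/
def Step (b : V → ℕ) (κ : V → C) (σ σ' : Finset V × C) : Prop :=
  ∃ v r, κ v = σ.2 ∧ r ∈ σ.1 ∧ b r = b v ∧ σ' = (insert v (σ.1.erase r), κ r)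

/-- valid states -/
def Valid (G : SimpleGraph V) (b : V → ℕ) (κ : V → C) (m : ℕ) (σ : Finset V × C) : Prop :=
  IT G b σ.1 ∧ σ.2 ∉ σ.1.image κ ∧ (σ.1.image κ).card = m

lemma valid_step {G : SimpleGraph V} {b : V → ℕ} {κ : V → C}
    (hκ : ∀ u v, G.Adj u v → κ u = κ v) {m : ℕ}
    (hm : ∀ I, IT G b I → (I.image κ).card ≤ m) {σ σ' : Finset V × C} (h : Valid G b κ m σ)
    (hs : Step b κ σ σ') : Valid G b κ m σ' := by
  obtain ⟨v, r, hv, hr, hb, rfl⟩ := hs
  obtain ⟨h1, h2, h3⟩ := h
  rw [← hv] at h2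
  have := step_valid hκ hm h1 h2 h3 hr hb
  exact ⟨this.1, this.2.1, this.2.2.1⟩

lemma valid_reach {G : SimpleGraph V} {b : V → ℕ} {κ : V → C}
    (hκ : ∀ u v, G.Adj u v → κ u = κ v) {m : ℕ}
    (hm : ∀ I, IT G b I → (I.image κ).card ≤ m) {σ σ' : Finset V × C} (h : Valid G b κ m σ)
    (hs : Relation.ReflTransGen (Step b κ) σ σ') : Valid G b κ m σ' := by
  induction hs with
  | refl => exact h
  | tail _ h2 ih => exact valid_step hκ hm ih h2

/-- F2 -/
lemma rep_in_reach {b : V → ℕ} {κ : V → C} {σ₀ σ₁ : Finset V × C}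
    (_h01 : Relation.ReflTransGen (Step b κ) σ₀ σ₁)
    {v : V} (hv : κ v = σ₁.2) {σ : Finset V × C}
    (hs : Relation.ReflTransGen (Step b κ) σ σ₁) :
    Relation.ReflTransGen (Step b κ) σ₀ σ → ∀ r ∈ σ.1, b r = b v →
      ∃ τ, Relation.ReflTransGen (Step b κ) σ₀ τ ∧ τ.2 = κ r := by
  induction hs using Relation.ReflTransGen.head_induction_on with
  | refl =>
    intro h0 r hr hb
    exact ⟨_, h0.tail ⟨v, r, hv, hr, hb, rfl⟩, rfl⟩
  | head h1 h2 ih =>
    intro h0 r hr hb
    have h0' := h0.tail h1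
    obtain ⟨v', r', hv', hr', hb', e⟩ := h1
    by_cases hrr : r = r'
    · subst hrr
      exact ⟨_, h0', by rw [e]⟩
    · apply ih h0' r _ hb
      rw [e]
      exact Finset.mem_insert_of_mem (Finset.mem_erase.2 ⟨hrr, hr⟩)

/-- F3 -/
lemma unique_in_reach {G : SimpleGraph V} {b : V → ℕ} {κ : V → C}
    (hκ : ∀ u v, G.Adj u v → κ u = κ v) {m : ℕ}
    (hm : ∀ I, IT G b I → (I.image κ).card ≤ m) {σ₁ : Finset V × C}
    (_hv1 : Valid G b κ m σ₁) {σ : Finset V × C}
    (hs : Relation.ReflTransGen (Step b κ) σ σ₁) :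
    Valid G b κ m σ → ∀ r ∈ σ.1, ∀ r' ∈ σ.1, κ r = σ₁.2 → κ r' = σ₁.2 → r = r' := by
  induction hs using Relation.ReflTransGen.head_induction_on with
  | refl =>
    intro hv r hr r' hr' e e'
    exact absurd (by rw [← e]; exact Finset.mem_image_of_mem _ hr) hv.2.1
  | head h1 h2 ih =>
    intro hv r hr r' hr' e e'
    have hv2 := valid_step hκ hm hv h1
    obtain ⟨w, q, hw, hq, hb, eq⟩ := h1
    obtain ⟨k1, k2, k3⟩ := hv
    have hsv := step_valid hκ hm k1 (hw ▸ k2) k3 hq hb
    by_cases h : r = q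
    · subst h
      exact (hsv.2.2.2.1 r' hr' (e'.trans e.symm)).symm
    · by_cases h' : r' = q
      · subst h'
        exact hsv.2.2.2.1 r hr (e.trans e'.symm)
      · apply ih hv2 r _ r' _ e e'
        · rw [eq]; exact Finset.mem_insert_of_mem (Finset.mem_erase.2 ⟨h, hr⟩)
        · rw [eq]; exact Finset.mem_insert_of_mem (Finset.mem_erase.2 ⟨h', hr'⟩)

end Pool.Agent.H61.CPT
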