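import Mathlib

set_option autoImplicit false

/-! Haxell's theorem on independent transversals (finite and infinite form). -/

namespace Pool.Agent.H61.CPT.Haxell

open Classical

variable {I S : Type*}

/-- neighbours of `v` among the representatives of the parts in `P`. -/
noncomputable def N (adj : I × S → I × S → Prop) (P : Finset I) (f : I → S) (v : I × S) :
    Finset I := P.filter (fun j => adj v (j, f j))

/-- parts reached so far. -/
noncomputable def J (adj : I × S → I × S → Prop) (P : Finset I) (i0 : I) (f : I → S) :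
    List (I × S) → Finset I
  | [] => {i0}
  | v :: vs => J adj P i0 f vs ∪ N adj P f v

def Good (adj : I × S → I × S → Prop) (P : Finset I) (f : I → S) : Prop :=
  ∀ i ∈ P, ∀ j ∈ P, i ≠ j → ¬ adj (i, f i) (j, f j)

def Valid (adj : I × S → I × S → Prop) (P : Finset I) (i0 : I) (f : I → S) :
    List (I × S) → Prop
  | [] => True
  | v :: vs => Valid adj P i0 f vs ∧ v.1 ∈ J adj P i0 f vs ∧ (∀ u ∈ vs, ¬ adj v u) ∧
      (∀ j ∈ J adj P i0 f vs, j ≠ i0 → ¬ adj v (j, f j)) ∧ (N adj P f v).Nonempty

variable {adj : I × S → I × S → Prop} {P : Finset I} {i0 : I}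

lemma i0_mem_J (f : I → S) (vs : List (I × S)) : i0 ∈ J adj P i0 f vs := by
  induction vs with
  | nil => simp [J]
  | cons v vs ih => simp [J, ih]

lemma J_subset (f : I → S) (vs : List (I × S)) : J adj P i0 f vs ⊆ insert i0 P := by
  induction vs with
  | nil => simp [J]
  | cons v vs ih =>
    intro j hj
    rw [J, Finset.mem_union] at hj
    rcases hj with hj | hj
    · exact ih hj
    · exact Finset.mem_insert_of_mem (Finset.mem_filter.1 hj).1

lemma disj (hi0 : i0 ∉ P) (f : I → S) (vs : List (I × S)) (v : I × S)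
    (h : ∀ j ∈ J adj P i0 f vs, j ≠ i0 → ¬ adj v (j, f j)) :
    Disjoint (J adj P i0 f vs) (N adj P f v) := by
  rw [Finset.disjoint_left]
  intro j hj hj'
  have h1 := Finset.mem_filter.1 hj'
  exact h j hj (fun e => hi0 (e ▸ h1.1)) h1.2

lemma card_J (hi0 : i0 ∉ P) (f : I → S) (vs : List (I × S)) (hv : Valid adj P i0 f vs) :
    vs.length + 1 ≤ (J adj P i0 f vs).card := by
  induction vs with
  | nil => simp [J]
  | cons v vs ih =>
    obtain ⟨h1, -, -, h4, h5⟩ := hv
    rw [J, Finset.card_union_of_disjoint (disj hi0 f vs v h4)]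
    have := ih h1
    have := h5.card_pos
    simp only [List.length_cons]
    omega

lemma J_congr {f f' : I → S} {vs : List (I × S)}
    (h : ∀ u ∈ vs, N adj P f' u = N adj P f u) : J adj P i0 f' vs = J adj P i0 f vs := by
  induction vs with
  | nil => rfl
  | cons v vs ih =>
    rw [J, J, ih (fun u hu => h u (List.mem_cons_of_mem _ hu)), h v List.mem_cons_self]

lemma valid_congr {f f' : I → S} {vs : List (I × S)}
    (h : ∀ u ∈ vs, N adj P f' u = N adj P f u) (h2 : ∀ j ∈ J adj P i0 f vs, f' j = f j)
    (hv : Valid adj P i0 f vs) : Valid adj P i0 f' vs := by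
  induction vs with
  | nil => trivial
  | cons v vs ih =>
    have hN : ∀ u ∈ vs, N adj P f' u = N adj P f u := fun u hu => h u (List.mem_cons_of_mem _ hu)
    have hJ : J adj P i0 f' vs = J adj P i0 f vs := J_congr hN
    have h2' : ∀ j ∈ J adj P i0 f vs, f' j = f j := fun j hj => h2 j (by
      rw [J]; exact Finset.mem_union_left _ hj)
    obtain ⟨a1, a2, a3, a4, a5⟩ := hv
    refine ⟨ih hN h2' a1, hJ ▸ a2, a3, ?_, ?_⟩
    · intro j hj hne
      rw [hJ] at hj
      rw [h2' j hj]
      exact a4 j hj hne
    · rw [h v List.mem_cons_self]; exact a5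

/-- first place where `j` was reached. -/
lemma find_first (f : I → S) (vs : List (I × S)) (j : I) (hj : j ∈ J adj P i0 f vs)
    (hne : j ≠ i0) : ∃ pre v post, vs = pre ++ v :: post ∧ j ∈ N adj P f v ∧
      j ∉ J adj P i0 f post := by
  induction vs with
  | nil => simp [J] at hj; exact absurd hj hne
  | cons v vs ih =>
    by_cases h : j ∈ J adj P i0 f vs
    · obtain ⟨pre, w, post, h1, h2, h3⟩ := ih h
      exact ⟨v :: pre, w, post, by rw [h1]; rfl, h2, h3⟩
    · rw [J, Finset.mem_union] at hj
      exact ⟨[], v, vs, rfl, hj.resolve_left h, h⟩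

lemma J_mono_append (f : I → S) (pre post : List (I × S)) :
    J adj P i0 f post ⊆ J adj P i0 f (pre ++ post) := by
  induction pre with
  | nil => simp
  | cons v pre ih =>
    intro j hj
    rw [List.cons_append, J]
    exact Finset.mem_union_left _ (ih hj)

lemma not_mem_N_of_not_mem_J (f : I → S) (vs : List (I × S)) (j : I)
    (h : j ∉ J adj P i0 f vs) : ∀ u ∈ vs, j ∉ N adj P f u := by
  induction vs with
  | nil => simp
  | cons v vs ih =>
    rw [J, Finset.mem_union, not_or] at h
    intro u hu
    rcases List.mem_cons.1 hu with rfl | hu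
    · exact h.2
    · exact ih h.1 u hu

/-- The improvement alternative. -/
def Improve (adj : I × S → I × S → Prop) (P : Finset I) (i0 : I) (f : I → S)
    (vs : List (I × S)) : Prop :=
  ∃ pre v post, ∃ f' : I → S, vs = pre ++ v :: post ∧ Good adj P f' ∧
    (∀ j ∈ J adj P i0 f post, f' j = f j) ∧ (∀ u ∈ post, N adj P f' u = N adj P f u) ∧
    (N adj P f' v).card < (N adj P f v).card

def IT (adj : I × S → I × S → Prop) (P : Finset I) : Prop := ∃ g : I → S, Good adj P g

lemma swap (hsymm : ∀ a b, adj a b → adj b a) (hi0 : i0 ∉ P) (f : I → S) (vs : List (I × S))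
    (v : I × S) (hf : Good adj P f) (h1 : v.1 ∈ J adj P i0 f vs) (h2 : ∀ u ∈ vs, ¬ adj v u)
    (hN : N adj P f v = ∅) : IT adj (insert i0 P) ∨ Improve adj P i0 f vs := by
  have hno : ∀ j ∈ P, ¬ adj v (j, f j) := by
    intro j hj hadj
    have : j ∈ N adj P f v := Finset.mem_filter.2 ⟨hj, hadj⟩
    rw [hN] at this
    simp at this
  set g : I → S := Function.update f v.1 v.2 with hg
  have hgv : g v.1 = v.2 := by simp [hg]
  have hgo : ∀ j, j ≠ v.1 → g j = f j := fun j hj => by simp [hg, Function.update_of_ne hj]
  have hgood : ∀ i ∈ insert v.1 P, ∀ j ∈ insert v.1 P, i ≠ j → ¬ adj (i, g i) (j, g j) := by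
    intro i hi j hj hij hadj
    by_cases hi1 : i = v.1
    · subst hi1
      have hj1 : j ≠ v.1 := fun e => hij e.symm
      have hjP : j ∈ P := (Finset.mem_insert.1 hj).resolve_left hj1
      rw [hgv, hgo j hj1] at hadj
      exact hno j hjP hadj
    · have hiP : i ∈ P := (Finset.mem_insert.1 hi).resolve_left hi1
      rw [hgo i hi1] at hadj
      by_cases hj1 : j = v.1
      · subst hj1
        rw [hgv] at hadj
        exact hno i hiP (hsymm _ _ hadj)
      · have hjP : j ∈ P := (Finset.mem_insert.1 hj).resolve_left hj1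
        rw [hgo j hj1] at hadj
        exact hf i hiP j hjP hij hadj
  by_cases hv0 : v.1 = i0
  · left
    refine ⟨g, ?_⟩
    rw [← hv0]
    exact hgood
  · right
    obtain ⟨pre, w, post, e1, e2, e3⟩ := find_first f vs v.1 h1 hv0
    have hvP : v.1 ∈ P := (Finset.mem_filter.1 e2).1
    have hsub : ∀ u ∈ vs, N adj P g u = (N adj P f u).erase v.1 := by
      intro u hu
      ext j
      simp only [N, Finset.mem_filter, Finset.mem_erase]
      constructor
      · rintro ⟨hj, hadj⟩
        by_cases hj1 : j = v.1
        · subst hj1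
          rw [hgv] at hadj
          exact absurd (hsymm _ _ hadj) (h2 u hu)
        · rw [hgo j hj1] at hadj
          exact ⟨hj1, hj, hadj⟩
      · rintro ⟨hj1, hj, hadj⟩
        rw [hgo j hj1]
        exact ⟨hj, hadj⟩
    refine ⟨pre, w, post, g, e1, ?_, ?_, ?_, ?_⟩
    · intro i hi j hj hij
      exact hgood i (Finset.mem_insert_of_mem hi) j (Finset.mem_insert_of_mem hj) hij
    · intro j hj
      exact hgo j (fun e => e3 (e ▸ hj))
    · intro u hu
      rw [hsub u (by rw [e1]; simp [hu])]
      exact Finset.erase_eq_of_notMem (not_mem_N_of_not_mem_J f post _ e3 u hu)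
    · rw [hsub w (by rw [e1]; simp)]
      exact Finset.card_erase_lt_of_mem e2

theorem main (hsymm : ∀ a b, adj a b → adj b a) (hi0 : i0 ∉ P)
    (h : ∀ K : Finset I, K.Nonempty → ∀ Z : Finset (I × S), Z.card ≤ 2 * (K.card - 1) →
      ∃ i ∈ K, ∃ s, ∀ z ∈ Z, ¬ adj (i, s) z) :
    ∀ (r : ℕ) (f : I → S) (vs : List (I × S)), Good adj P f → Valid adj P i0 f vs →
      (insert i0 P).card - (J adj P i0 f vs).card = r →
      IT adj (insert i0 P) ∨ Improve adj P i0 f vs := by
  intro r
  induction r using Nat.strong_induction_on with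
  | _ r ihr =>
  intro f vs hf hv hr
  obtain ⟨i, hi, s, hs⟩ := h (J adj P i0 f vs) ⟨i0, i0_mem_J f vs⟩
    (vs.toFinset ∪ ((J adj P i0 f vs).erase i0).image (fun j => (j, f j))) (by
      have h1 := card_J hi0 f vs hv
      have h2 := List.toFinset_card_le vs
      have h3 : (((J adj P i0 f vs).erase i0).image (fun j => (j, f j))).card ≤
          (J adj P i0 f vs).card - 1 := by
        refine Finset.card_image_le.trans ?_
        rw [Finset.card_erase_of_mem (i0_mem_J f vs)]
      have h4 := Finset.card_union_le vs.toFinset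
        (((J adj P i0 f vs).erase i0).image (fun j => (j, f j)))
      omega)
  have hA : ∀ u ∈ vs, ¬ adj (i, s) u := fun u hu => hs u (by simp [hu])
  have hB : ∀ j ∈ J adj P i0 f vs, j ≠ i0 → ¬ adj (i, s) (j, f j) := fun j hj hne =>
    hs _ (by
      rw [Finset.mem_union]
      right
      rw [Finset.mem_image]
      exact ⟨j, Finset.mem_erase.2 ⟨hne, hj⟩, rfl⟩)
  -- inner induction
  have inner : ∀ (w : ℕ) (f' : I → S), Good adj P f' → Valid adj P i0 f' vs →
      (∀ j ∈ J adj P i0 f vs, f' j = f j) → (∀ u ∈ vs, N adj P f' u = N adj P f u) →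
      (N adj P f' (i, s)).card = w → IT adj (insert i0 P) ∨ Improve adj P i0 f' vs := by
    intro w
    induction w using Nat.strong_induction_on with
    | _ w ihw =>
    intro f' hf' hv' hag hNag hw
    have hJ : J adj P i0 f' vs = J adj P i0 f vs := J_congr hNag
    rcases Finset.eq_empty_or_nonempty (N adj P f' (i, s)) with hE | hE
    · exact swap hsymm hi0 f' vs (i, s) hf' (by rw [hJ]; exact hi) hA hE
    · have hB' : ∀ j ∈ J adj P i0 f' vs, j ≠ i0 → ¬ adj (i, s) (j, f' j) := by
        intro j hj hne
        rw [hJ] at hj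
        rw [hag j hj]
        exact hB j hj hne
      have hval : Valid adj P i0 f' ((i, s) :: vs) := ⟨hv', by rw [hJ]; exact hi, hA, hB', hE⟩
      have hcard : (J adj P i0 f' ((i, s) :: vs)).card =
          (J adj P i0 f' vs).card + (N adj P f' (i, s)).card := by
        rw [J, Finset.card_union_of_disjoint (disj hi0 f' vs (i, s) hB')]
      have hle := Finset.card_le_card (J_subset (adj := adj) (P := P) (i0 := i0) f' ((i, s) :: vs))
      have hpos := hE.card_pos
      rcases ihr ((insert i0 P).card - (J adj P i0 f' ((i, s) :: vs)).card)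
        (by rw [← hr, ← hJ]; omega) f' ((i, s) :: vs) hf' hval rfl with h1 | h1
      · exact Or.inl h1
      · obtain ⟨pre, v, post, f'', e1, e2, e3, e4, e5⟩ := h1
        rcases pre with _ | ⟨p, pre⟩
        · -- improvement at the new vertex
          simp only [List.nil_append, List.cons.injEq] at e1
          obtain ⟨e1, rfl⟩ := e1
          subst e1
          have hag' : ∀ j ∈ J adj P i0 f vs, f'' j = f j := by
            intro j hj
            rw [← hag j hj]
            exact e3 j (by rw [hJ]; exact hj)
          have hNag' : ∀ u ∈ vs, N adj P f'' u = N adj P f u := by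
            intro u hu
            rw [← hNag u hu]
            exact e4 u hu
          have hv'' : Valid adj P i0 f'' vs := valid_congr e4 e3 hv'
          rcases ihw _ (hw ▸ e5) f'' e2 hv'' hag' hNag' rfl with h1 | h1
          · exact Or.inl h1
          · right
            obtain ⟨pre, v, post, g, g1, g2, g3, g4, g5⟩ := h1
            have hpost : ∀ u ∈ post, u ∈ vs := fun u hu => by rw [g1]; simp [hu]
            have hJp : J adj P i0 f'' post = J adj P i0 f' post :=
              J_congr (fun u hu => e4 u (hpost u hu))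
            refine ⟨pre, v, post, g, g1, g2, ?_, ?_, ?_⟩
            · intro j hj
              rw [g3 j (by rw [hJp]; exact hj)]
              apply e3 j
              rw [g1, ← List.singleton_append, ← List.append_assoc]
              exact J_mono_append f' _ post hj
            · intro u hu
              rw [g4 u hu]
              exact e4 u (hpost u hu)
            · rw [← e4 v (by rw [g1]; simp)]
              exact g5
        · right
          simp only [List.cons_append, List.cons.injEq] at e1
          exact ⟨pre, v, post, f'', e1.2, e2, e3, e4, e5⟩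
  exact inner _ f hf hv (fun _ _ => rfl) (fun _ _ => rfl) rfl

/-- **Haxell's theorem**, finite sets of parts. -/
theorem finite [Nonempty S] (hsymm : ∀ a b, adj a b → adj b a)
    (h : ∀ K : Finset I, K.Nonempty → ∀ Z : Finset (I × S), Z.card ≤ 2 * (K.card - 1) →
      ∃ i ∈ K, ∃ s, ∀ z ∈ Z, ¬ adj (i, s) z) (P : Finset I) :
    ∃ f : I → S, ∀ i ∈ P, ∀ j ∈ P, i ≠ j → ¬ adj (i, f i) (j, f j) := by
  induction P using Finset.induction_on with
  | empty => exact ⟨fun _ => Classical.arbitrary S, by simp⟩
  | insert i0 P hi0 ih =>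
    obtain ⟨f, hf⟩ := ih
    rcases main hsymm hi0 h _ f [] hf trivial rfl with h1 | h1
    · exact h1
    · obtain ⟨pre, v, post, f', e, -⟩ := h1
      simp at e

/-- **Haxell's theorem**, arbitrary sets of finite parts (compactness). -/
theorem infinite [Finite S] [Nonempty S] (hsymm : ∀ a b, adj a b → adj b a)
    (h : ∀ K : Finset I, K.Nonempty → ∀ Z : Finset (I × S), Z.card ≤ 2 * (K.card - 1) →
      ∃ i ∈ K, ∃ s, ∀ z ∈ Z, ¬ adj (i, s) z) :
    ∃ f : I → S, ∀ i j, i ≠ j → ¬ adj (i, f i) (j, f j) := by
  letI : TopologicalSpace S := ⊥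
  haveI : DiscreteTopology S := ⟨rfl⟩
  have hne : (⋂ P : Finset I, {f : I → S | ∀ i ∈ P, ∀ j ∈ P, i ≠ j →
      ¬ adj (i, f i) (j, f j)}).Nonempty := by
    apply IsCompact.nonempty_iInter_of_directed_nonempty_isCompact_isClosed
    · intro P Q
      refine ⟨P ∪ Q, ?_, ?_⟩
      · intro f hf i hi j hj
        exact hf i (Finset.mem_union_left _ hi) j (Finset.mem_union_left _ hj)
      · intro f hf i hi j hj
        exact hf i (Finset.mem_union_right _ hi) j (Finset.mem_union_right _ hj)
    · intro P
      exact finite hsymm h P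
    · intro P
      apply IsClosed.isCompact
      simp only [Set.setOf_forall]
      refine isClosed_biInter fun i _ => isClosed_biInter fun j _ => isClosed_iInter fun _ => ?_
      have : Continuous fun f : I → S => (f i, f j) := by fun_prop
      exact (isClosed_discrete {p : S × S | ¬ adj (i, p.1) (j, p.2)}).preimage this
    · intro P
      simp only [Set.setOf_forall]
      refine isClosed_biInter fun i _ => isClosed_biInter fun j _ => isClosed_iInter fun _ => ?_
      have : Continuous fun f : I → S => (f i, f j) := by fun_prop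
      exact (isClosed_discrete {p : S × S | ¬ adj (i, p.1) (j, p.2)}).preimage this
  obtain ⟨f, hf⟩ := hne
  refine ⟨f, fun i j hij => ?_⟩
  have := Set.mem_iInter.1 hf {i, j}
  exact this i (by simp) j (by simp) hij

end Pool.Agent.H61.CPT.Haxell
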