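import Pool.Agent.H61.CPT.Region

set_option autoImplicit false
set_option linter.unusedSectionVars false
set_option linter.unusedSimpArgs false

namespace Pool.Agent.H61.CPT

open Finset Function

variable {V : Type*} [Fintype V] [DecidableEq V]

lemma comp_tri (G : SimpleGraph V) [DecidableRel G.Adj] [DecidableEq G.ConnectedComponent] (hdeg : ∀ v, G.degree v = 2) (v : V)
    (h : (univ.filter (fun u => G.connectedComponentMk u = G.connectedComponentMk v)).card ≤ 3) :
    ∃ x y, G.Adj v x ∧ G.Adj v y ∧ G.Adj x y ∧
      ∀ u, G.connectedComponentMk u = G.connectedComponentMk v → u = v ∨ u = x ∨ u = y := by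
  have h2 : (G.neighborFinset v).card = 2 := by
    rw [SimpleGraph.card_neighborFinset_eq_degree, hdeg]
  obtain ⟨x, y, hxy, e⟩ := Finset.card_eq_two.1 h2
  have hvx : G.Adj v x := by
    rw [← SimpleGraph.mem_neighborFinset, e]; simp
  have hvy : G.Adj v y := by
    rw [← SimpleGraph.mem_neighborFinset, e]; simp
  have hsub : ({v, x, y} : Finset V) ⊆
      univ.filter (fun u => G.connectedComponentMk u = G.connectedComponentMk v) := by
    intro u hu
    simp only [Finset.mem_insert, Finset.mem_singleton] at hu
    rw [Finset.mem_filter]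
    refine ⟨mem_univ _, ?_⟩
    rcases hu with rfl | rfl | rfl
    · rfl
    · exact (SimpleGraph.ConnectedComponent.connectedComponentMk_eq_of_adj hvx).symm
    · exact (SimpleGraph.ConnectedComponent.connectedComponentMk_eq_of_adj hvy).symm
  have heq : ({v, x, y} : Finset V) =
      univ.filter (fun u => G.connectedComponentMk u = G.connectedComponentMk v) := by
    apply Finset.eq_of_subset_of_card_le hsub
    rw [Finset.card_eq_three.2 ⟨v, x, y, hvx.ne, hvy.ne, hxy, rfl⟩]
    exact h
  have hall : ∀ u, G.connectedComponentMk u = G.connectedComponentMk v → u = v ∨ u = x ∨ u = y := by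
    intro u hu
    have : u ∈ ({v, x, y} : Finset V) := by
      rw [heq, Finset.mem_filter]; exact ⟨mem_univ _, hu⟩
    simpa using this
  refine ⟨x, y, hvx, hvy, ?_, hall⟩
  -- the second neighbour of x
  have h3 : (G.neighborFinset x).card = 2 := by
    rw [SimpleGraph.card_neighborFinset_eq_degree, hdeg]
  by_contra hcon
  have h4 : G.neighborFinset x ⊆ {v} := by
    intro u hu
    rw [SimpleGraph.mem_neighborFinset] at hu
    have hk : G.connectedComponentMk u = G.connectedComponentMk v := by
      rw [← SimpleGraph.ConnectedComponent.connectedComponentMk_eq_of_adj hu]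
      exact (SimpleGraph.ConnectedComponent.connectedComponentMk_eq_of_adj hvx).symm
    rcases hall u hk with rfl | rfl | rfl
    · simp
    · exact absurd hu (G.irrefl)
    · exact absurd hu hcon
  have := Finset.card_le_card h4
  rw [h3, Finset.card_singleton] at this
  omega

/-- **Main theorem**, component form. -/
theorem main_component (G : SimpleGraph V) [DecidableRel G.Adj] (hdeg : ∀ v, G.degree v = 2)
    (b : V → ℕ) (hblock : ∀ v, (univ.filter (fun w => b w = b v)).card = 4)
    (hyp : ∀ S : Finset ℕ,
      {D : G.ConnectedComponent | ∀ v, G.connectedComponentMk v = D → b v ∈ S}.ncard ≤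
        S.card + 1) :
    (G ⊔ SimpleGraph.fromRel (fun v w : V => b v = b w)).Colorable 4 := by
  classical
  have hdeg2 : ∀ v, G.degree v ≤ 2 := fun v => (hdeg v).le
  have : Finite G.ConnectedComponent := inferInstanceAs (Finite (Quot _))
  have : Fintype G.ConnectedComponent := Fintype.ofFinite _
  set κ : V → G.ConnectedComponent := G.connectedComponentMk with hκdef
  have hκ : ∀ u v, G.Adj u v → κ u = κ v := fun u v h =>
    SimpleGraph.ConnectedComponent.connectedComponentMk_eq_of_adj h
  obtain ⟨I₁, hI₁⟩ := exists_IT G hdeg2 b hblock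
  obtain ⟨I₀, hI₀, hmax⟩ := Finset.exists_max_image
    ((univ : Finset (Finset V)).filter (fun I => IT G b I)) (fun I => (I.image κ).card)
    ⟨I₁, by simp [hI₁]⟩
  have hI₀' : IT G b I₀ := (Finset.mem_filter.1 hI₀).2
  have hm : ∀ I, IT G b I → (I.image κ).card ≤ (I₀.image κ).card := fun I hI =>
    hmax I (by simp [hI])
  have hncard : ∀ (S : Finset ℕ) (𝒟 : Finset G.ConnectedComponent),
      (∀ D ∈ 𝒟, ∀ v, κ v = D → b v ∈ S) → 𝒟.card ≤ S.card + 1 := by
    intro S 𝒟 h
    refine le_trans ?_ (hyp S)
    rw [← Set.ncard_coe_finset]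
    apply Set.ncard_le_ncard _ (Set.toFinite _)
    intro D hD v hv
    exact h D hD v hv
  -- the unhit components
  set U : Finset G.ConnectedComponent := univ \ I₀.image κ with hUdef
  have hcount := region_count hκ hm hI₀' rfl U (fun D hD => (Finset.mem_sdiff.1 hD).2)
  simp only at hcount
  set 𝒟 := U.biUnion (fun D => RC b κ (I₀, D)) with h𝒟
  set S := (univ.filter (fun v => κ v ∈ 𝒟)).image b with hS
  have hin : ∀ D ∈ 𝒟, ∀ v, κ v = D → b v ∈ S := by
    intro D hD v hv
    rw [hS]
    apply Finset.mem_image_of_mem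
    rw [Finset.mem_filter, hv]
    exact ⟨mem_univ _, hD⟩
  have hle := hncard S 𝒟 hin
  have hU1 : U.card ≤ 1 := by omega
  rcases Nat.lt_or_ge 0 U.card with hpos | hzero
  · -- exactly one unhit component
    have hU : U.card = 1 := by omega
    obtain ⟨C₀, hC₀⟩ := Finset.card_eq_one.1 hU
    -- some reachable component is a triangle
    have hex : ∃ D ∈ 𝒟, (univ.filter (fun u => κ u = D)).card ≤ 3 := by
      by_contra hcon
      push Not at hcon
      have h1 : 𝒟.card * 4 ≤ ∑ D ∈ 𝒟, (univ.filter (fun u => κ u = D)).card := by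
        rw [← smul_eq_mul]
        apply Finset.card_nsmul_le_sum
        intro D hD
        exact hcon D hD
      have h2 : ∑ D ∈ 𝒟, (univ.filter (fun u => κ u = D)).card =
          (univ.filter (fun u => κ u ∈ 𝒟)).card := by
        rw [Finset.card_eq_sum_card_fiberwise (f := κ) (t := 𝒟)]
        · apply Finset.sum_congr rfl
          intro D hD
          congr 1
          ext u
          simp only [Finset.mem_filter, mem_univ, true_and]
          constructor
          · rintro rfl; exact ⟨hD, rfl⟩
          · rintro ⟨-, h⟩; exact h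
        · intro u hu
          exact (Finset.mem_filter.1 (Finset.mem_coe.1 hu)).2
      have h3 : (univ.filter (fun u => κ u ∈ 𝒟)).card ≤ S.card * 4 := by
        have : univ.filter (fun u => κ u ∈ 𝒟) ⊆
            S.biUnion (fun β => univ.filter (fun w => b w = β)) := by
          intro u hu
          rw [Finset.mem_biUnion]
          exact ⟨b u, hin _ (Finset.mem_filter.1 hu).2 u rfl, by simp⟩
        refine (Finset.card_le_card this).trans ?_
        apply Finset.card_biUnion_le_card_mul
        intro β hβ
        obtain ⟨v, -, rfl⟩ := Finset.mem_image.1 hβ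
        exact (hblock v).le
      omega
    obtain ⟨D, hD, hDcard⟩ := hex
    have hDr : ∃ τ, Relation.ReflTransGen (Step b κ) (I₀, C₀) τ ∧ τ.2 = D := by
      obtain ⟨D1, hD1, hD2⟩ := Finset.mem_biUnion.1 hD
      rw [hC₀, Finset.mem_singleton] at hD1
      subst hD1
      exact (mem_RC _ _ _ _).1 hD2
    obtain ⟨⟨I, D'⟩, hreach, e⟩ := hDr
    simp only at e
    subst e
    have hC₀U : C₀ ∉ I₀.image κ := by
      have : C₀ ∈ U := by rw [hC₀]; simp
      exact (Finset.mem_sdiff.1 this).2
    have hval : Valid G b κ (I₀.image κ).card (I₀, C₀) := ⟨hI₀', hC₀U, rfl⟩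
    obtain ⟨hIT, hunhit, hcardI⟩ := valid_reach hκ hm hval hreach
    simp only at hIT hunhit hcardI
    -- all other components are hit
    have hall : ∀ E, E ≠ D' → E ∈ I.image κ := by
      intro E hE
      by_contra hcon
      have h1 : ({E, D'} : Finset G.ConnectedComponent) ⊆ univ \ I.image κ := by
        intro F hF
        simp only [Finset.mem_insert, Finset.mem_singleton] at hF
        rw [Finset.mem_sdiff]
        rcases hF with rfl | rfl
        · exact ⟨mem_univ _, hcon⟩
        · exact ⟨mem_univ _, hunhit⟩
      have h2 := Finset.card_le_card h1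
      rw [Finset.card_pair hE, Finset.card_sdiff_of_subset (Finset.subset_univ _), hcardI] at h2
      rw [hUdef, Finset.card_sdiff_of_subset (Finset.subset_univ _)] at hU
      omega
    obtain ⟨v, rfl⟩ := D'.exists_rep
    obtain ⟨x, y, hvx, hvy, hxy, hxyall⟩ := comp_tri G hdeg v hDcard
    have hnot : ∀ u, κ u = κ v → u ∉ I := by
      intro u hu h
      apply hunhit
      have := Finset.mem_image_of_mem κ h
      rw [hu] at this
      exact this
    apply assemble G hdeg2 b hblock I hIT.1 hIT.2.1 hIT.2.2
    right
    refine ⟨v, x, y, hnot v rfl, hnot x (hκ _ _ hvx).symm, hnot y (hκ _ _ hvy).symm, hvx, hvy,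
      hxy, ?_⟩
    intro X hX hcl
    obtain ⟨u, hu⟩ := hX
    by_cases huv : κ u = κ v
    · exact ⟨u, hu, Or.inr (hxyall u huv)⟩
    · obtain ⟨r, hr, e⟩ := Finset.mem_image.1 (hall (κ u) huv)
      exact ⟨r, closed_comp G X hcl hu e.symm, Or.inl hr⟩
  · -- all components hit
    have hU : U = ∅ := Finset.card_eq_zero.1 (by omega)
    apply assemble G hdeg2 b hblock I₀ hI₀'.1 hI₀'.2.1 hI₀'.2.2
    left
    intro X hX hcl
    obtain ⟨u, hu⟩ := hX
    have : κ u ∈ I₀.image κ := by
      by_contra hcon
      have : κ u ∈ U := Finset.mem_sdiff.2 ⟨mem_univ _, hcon⟩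
      rw [hU] at this
      simp at this
    obtain ⟨r, hr, e⟩ := Finset.mem_image.1 this
    exact ⟨r, closed_comp G X hcl hu e.symm, hr⟩

end Pool.Agent.H61.CPT
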