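import Pool.Agent.H61.CPT.Basic

set_option autoImplicit false
set_option linter.unusedSectionVars false
set_option linter.unusedSimpArgs false

namespace Pool.Agent.H61.CPT

open Finset Function

variable {α : Type*} [Fintype α] [DecidableEq α]

/-- three pairwise different colours. -/
def Y3 (x y z : Fin 3) : ZMod 2 := if x ≠ y ∧ x ≠ z ∧ y ≠ z then 1 else 0

open Classical in
/-- indicator that a block is rainbow. -/
noncomputable def Y (A : Finset α) (f : α → Fin 3) : ZMod 2 :=
  if Set.InjOn f (A : Set α) then 1 else 0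

noncomputable def wt (bs : Finset (Finset α)) (f : α → Fin 3) : ZMod 2 := ∏ A ∈ bs, Y A f

def pin (J : Finset (Fin 3)) (s : Fin 3 → α) (f : α → Fin 3) : ZMod 2 :=
  ∏ j ∈ J, if f (s j) = j then 1 else 0

lemma Y_ind (A : Finset α) (u : α) (h : u ∉ A) : Ind (Y A) u := by
  intro f x
  unfold Y
  have : Set.InjOn (update f u x) (A : Set α) ↔ Set.InjOn f (A : Set α) := by
    apply Set.EqOn.injOn_iff
    intro a ha
    rw [update_of_ne]
    rintro rfl; exact h ha
  simp only [this]

lemma wt_ind (bs : Finset (Finset α)) (u : α) (h : ∀ A ∈ bs, u ∉ A) : Ind (wt bs) u := by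
  intro f x
  unfold wt
  exact Finset.prod_congr rfl (fun A hA => Y_ind A u (h A hA) f x)

lemma pin_ind (J : Finset (Fin 3)) (s : Fin 3 → α) (u : α) (h : ∀ j ∈ J, s j ≠ u) :
    Ind (pin J s) u := by
  intro f x
  unfold pin
  apply Finset.prod_congr rfl
  intro j hj
  rw [update_of_ne (h j hj)]

lemma Y_triple (f : α → Fin 3) (a b c : α) (hab : a ≠ b) (hac : a ≠ c) (hbc : b ≠ c) :
    Y {a, b, c} f = Y3 (f a) (f b) (f c) := by
  unfold Y Y3
  have : Set.InjOn f (({a, b, c} : Finset α) : Set α) ↔ f a ≠ f b ∧ f a ≠ f c ∧ f b ≠ f c := by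
    constructor
    · intro h
      refine ⟨fun e => hab (h ?_ ?_ e), fun e => hac (h ?_ ?_ e), fun e => hbc (h ?_ ?_ e)⟩ <;> simp
    · rintro ⟨h1, h2, h3⟩ x hx y hy e
      simp only [Finset.coe_insert, Finset.coe_singleton, Set.mem_insert_iff,
        Set.mem_singleton_iff] at hx hy
      rcases hx with rfl | rfl | rfl <;> rcases hy with rfl | rfl | rfl <;>
        first | rfl | (exact absurd e (by assumption)) | (exact absurd e.symm (by assumption))
  simp only [this]

lemma wt_rot (bs : Finset (Finset α)) (f : α → Fin 3) : wt bs (fun a => f a + 1) = wt bs f := by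
  unfold wt
  apply Finset.prod_congr rfl
  intro A _
  unfold Y
  have : Set.InjOn (fun a => f a + 1) (A : Set α) ↔ Set.InjOn f (A : Set α) := by
    constructor
    · intro h x hx y hy e
      exact h hx hy (by simp [e])
    · intro h x hx y hy e
      exact h hx hy (by simpa using e)
  simp only [this]

lemma wt_erase {bs : Finset (Finset α)} {A : Finset α} (h : A ∈ bs) (f : α → Fin 3) :
    wt bs f = Y A f * wt (bs.erase A) f := by
  unfold wt
  rw [← Finset.mul_prod_erase bs (fun A => Y A f) h]

lemma wt_insert {bs : Finset (Finset α)} {A : Finset α} (h : A ∉ bs) (f : α → Fin 3) :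
    wt (insert A bs) f = Y A f * wt bs f := by
  unfold wt
  rw [Finset.prod_insert h]

/-- description of a three element set with a marked element -/
lemma exists_triple {A : Finset α} (hA : A.card = 3) {u : α} (hu : u ∈ A) :
    ∃ a b, A = {u, a, b} ∧ u ≠ a ∧ u ≠ b ∧ a ≠ b := by
  have h1 : (A.erase u).card = 2 := by rw [Finset.card_erase_of_mem hu, hA]
  obtain ⟨a, b, hab, e⟩ := Finset.card_eq_two.1 h1
  have ha : a ∈ A.erase u := by rw [e]; simp
  have hb : b ∈ A.erase u := by rw [e]; simp
  refine ⟨a, b, ?_, (Finset.ne_of_mem_erase ha).symm, (Finset.ne_of_mem_erase hb).symm, hab⟩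
  rw [← e, Finset.insert_erase hu]

lemma Z_sumout2 (Φ Φ' : (α → Fin 3) → ZMod 2) (w : List α) (u v : α) (hu : u ∉ w) (hv : v ∉ w)
    (h : ∀ f, ∑ y, ∑ x, Φ (update (update f v y) u x) = Φ' f) : Z Φ w = Z Φ' w := by
  rw [Z_sumout Φ (fun f => ∑ x, Φ (update f u x)) w u hu (fun f => rfl)]
  exact Z_sumout _ _ w v hv h

lemma Z_zero (w : List α) : Z (fun _ : α → Fin 3 => 0) w = 0 := by
  unfold Z; simp

lemma Z_eval3 (Ψ : (α → Fin 3) → ZMod 2) (a b c : α) (w : List α)
    (hab : a ≠ b) (hac : a ≠ c) (hbc : b ≠ c) (ha : a ∉ w) (hb : b ∉ w) (hc : c ∉ w)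
    (ia : Ind Ψ a) (ib : Ind Ψ b) (ic : Ind Ψ c) :
    Z (fun f => Y {a, b, c} f * Ψ f) (a :: b :: c :: w) = Z Ψ w := by
  unfold Z
  rw [← sum_update _ a]
  rw [← sum_update _ b]
  rw [← sum_update _ c]
  apply Finset.sum_congr rfl
  intro f _
  have h1 : ∀ z y x : Fin 3, (Y {a, b, c} (update (update (update f c z) b y) a x) *
      Ψ (update (update (update f c z) b y) a x)) *
      (om * P (a :: b :: c :: w) (update (update (update f c z) b y) a x)).trace =
      Ψ f * (om * ((Y3 x y z • (N x * N y * N z)) * P w f)).trace := by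
    intro z y x
    rw [ia, ib, ic, Y_triple _ _ _ _ hab hac hbc]
    rw [P_cons, P_cons, P_cons, P_update _ _ _ _ ha, P_update _ _ _ _ hb, P_update _ _ _ _ hc]
    simp only [update_self, ne_eq, hab, hac, hbc, hab.symm, hac.symm, hbc.symm, not_false_eq_true,
      update_of_ne]
    rw [Matrix.smul_mul, Matrix.mul_smul, Matrix.trace_smul, smul_eq_mul]
    simp only [mul_assoc]
    ring
  simp only [h1]
  have h2 : ∑ z, ∑ y, ∑ x, (Y3 x y z • (N x * N y * N z)) = 1 := by decide
  simp only [← Finset.mul_sum, ← Matrix.trace_sum, ← Finset.sum_mul]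
  rw [h2, one_mul]

lemma Z_eval2 (Ψ : (α → Fin 3) → ZMod 2) (s a b : α) (w : List α)
    (hsa : s ≠ a) (hsb : s ≠ b) (hab : a ≠ b) (ha : a ∉ w) (hb : b ∉ w)
    (ia : Ind Ψ a) (ib : Ind Ψ b) :
    Z (fun f => Y {s, a, b} f * Ψ f) (a :: b :: w) = Z Ψ w := by
  unfold Z
  rw [← sum_update _ a]
  rw [← sum_update _ b]
  apply Finset.sum_congr rfl
  intro f _
  have h1 : ∀ y x : Fin 3, (Y {s, a, b} (update (update f b y) a x) *
      Ψ (update (update f b y) a x)) *
      (om * P (a :: b :: w) (update (update f b y) a x)).trace =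
      Ψ f * (om * ((Y3 (f s) x y • (N x * N y)) * P w f)).trace := by
    intro y x
    rw [ia, ib, Y_triple _ _ _ _ hsa hsb hab]
    rw [P_cons, P_cons, P_update _ _ _ _ ha, P_update _ _ _ _ hb]
    simp only [update_self, ne_eq, hab, hsa, hsb, hab.symm, not_false_eq_true,
      update_of_ne]
    rw [Matrix.smul_mul, Matrix.mul_smul, Matrix.trace_smul, smul_eq_mul]
    simp only [mul_assoc]
    ring
  simp only [h1]
  have h2 : ∀ i : Fin 3, ∑ y, ∑ x, (Y3 i x y • (N x * N y)) = 1 := by decide
  simp only [← Finset.mul_sum, ← Matrix.trace_sum, ← Finset.sum_mul]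
  rw [h2, one_mul]

lemma Z_del_all (Φ : (α → Fin 3) → ZMod 2) (w : List α) (hw : w.Nodup)
    (h : ∀ u ∈ w, Ind Φ u) : Z Φ w = Z Φ [] := by
  induction w with
  | nil => rfl
  | cons a w ih =>
    have := Z_delete Φ [] w a (by simp) (List.nodup_cons.1 hw).1 (h a (by simp))
    simp only [List.nil_append] at this
    rw [this]
    exact ih (List.nodup_cons.1 hw).2 (fun u hu => h u (by simp [hu]))

lemma Z_pin_nil (s : Fin 3 → α) (J : Finset (Fin 3)) (hs : Set.InjOn s (J : Set (Fin 3))) :
    Z (pin J s) [] = 1 := by
  induction J using Finset.induction_on with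
  | empty =>
    unfold Z pin
    simp only [Finset.prod_empty, one_mul, P_nil, mul_one, om_trace, Finset.sum_const, card_univ,
      Fintype.card_pi, Fintype.card_fin, Finset.prod_const, nsmul_eq_mul, Nat.cast_pow]
    have : ((3 : ℕ) : ZMod 2) = 1 := by decide
    rw [this]; simp
  | insert j J hj ih =>
    rw [Z_sumout (pin (insert j J) s) (pin J s) [] (s j) (by simp)]
    · apply ih
      exact hs.mono (by simp)
    · intro f
      have hI : Ind (pin J s) (s j) := by
        apply pin_ind
        intro i hi e
        have : i = j := hs (by simp [hi]) (by simp) e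
        exact hj (this ▸ hi)
      have : ∀ x, pin (insert j J) s (update f (s j) x) = (if x = j then 1 else 0) * pin J s f := by
        intro x
        rw [← hI f x]
        unfold pin
        rw [Finset.prod_insert hj, update_self]
      simp only [this]
      rw [← Finset.sum_mul]
      simp

/-- a configuration: pinned letters `s j` (`j ∈ J`), blocks, word. -/
structure Cfg (J : Finset (Fin 3)) (s : Fin 3 → α) (bs : Finset (Finset α)) (w : List α) : Prop where
  nodup : w.Nodup
  card : ∀ A ∈ bs, A.card = 3
  disj : ∀ A ∈ bs, ∀ B ∈ bs, A ≠ B → Disjoint A B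
  inj : Set.InjOn s (J : Set (Fin 3))
  pinw : ∀ j ∈ J, s j ∉ w
  one : ∀ A ∈ bs, ∀ i ∈ J, ∀ j ∈ J, s i ∈ A → s j ∈ A → i = j
  cov : ∀ A ∈ bs, ∀ a ∈ A, a ∈ w ∨ ∃ j ∈ J, s j = a

lemma Cfg.perm {J : Finset (Fin 3)} {s : Fin 3 → α} {bs : Finset (Finset α)} {w w' : List α}
    (h : Cfg J s bs w) (hp : w.Perm w') : Cfg J s bs w' where
  nodup := hp.nodup_iff.1 h.nodup
  card := h.card
  disj := h.disj
  inj := h.inj
  pinw := fun j hj hm => h.pinw j hj (hp.mem_iff.2 hm)
  one := h.one
  cov := fun A hA a ha => (h.cov A hA a ha).imp (fun hm => hp.mem_iff.1 hm) id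

/-- the inductive hypothesis at level `n` -/
def IH (α : Type*) [Fintype α] [DecidableEq α] (n : ℕ) : Prop :=
  ∀ (J : Finset (Fin 3)) (s : Fin 3 → α) (bs : Finset (Finset α)) (w : List α), bs.card < n →
    Cfg J s bs w → Z (fun f => wt bs f * pin J s f) w = 1

lemma add_self3 (a b c : ZMod 2) (h1 : a = b) (h2 : b = c) (h : a + b + c = 1) : a = 1 := by
  subst h1 h2
  revert a; decide

/-- first auxiliary claim. -/
lemma claimD1 {n : ℕ} (ih : IH α n) (s : Fin 3 → α) (bs : Finset (Finset α)) (w : List α)
    (hn : bs.card < n) (hc : Cfg ∅ s bs w) (p : α) (k : Fin 3) :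
    Z (fun f => wt bs f * (if f p = k then 1 else 0)) w = 1 := by
  set G : Fin 3 → ZMod 2 := fun k => Z (fun f => wt bs f * (if f p = k then 1 else 0)) w with hG
  have hrot : ∀ k, G k = G (k + 1) := by
    intro k
    rw [hG]
    simp only
    rw [← Z_rot (fun f => wt bs f * (if f p = k + 1 then 1 else 0)) w]
    apply Z_congr
    intro f
    rw [wt_rot]
    simp
  have hsum : G 0 + G 1 + G 2 = 1 := by
    rw [hG]
    simp only
    rw [← Z_add, ← Z_add]
    refine Eq.trans (Z_congr w ?_) (ih ∅ s bs w hn hc)
    intro f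
    rw [← mul_add, ← mul_add]
    congr 1
    unfold pin
    rw [Finset.prod_empty]
    generalize f p = x
    revert x; decide
  have h0 : G 0 = G 1 := hrot 0
  have h1 : G 1 = G 2 := hrot 1
  have h2 := add_self3 _ _ _ h0 h1 hsum
  have h3 : G 1 = 1 := h0 ▸ h2
  have h4 : G 2 = 1 := h1 ▸ h3
  fin_cases k
  · exact h2
  · exact h3
  · exact h4

/-- second auxiliary claim. -/
lemma claimD2 {n : ℕ} (ih : IH α n) (s : Fin 3 → α) (bs : Finset (Finset α)) (w : List α)
    (hn : bs.card < n) (p t : α) (hpt : p ≠ t) (htw : t ∉ w) (hpw : p ∈ w)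
    (hcard : ∀ A ∈ bs, A.card = 3)
    (hdisj : ∀ A ∈ bs, ∀ B ∈ bs, A ≠ B → Disjoint A B) (hw : w.Nodup)
    (hcov : ∀ A ∈ bs, ∀ a ∈ A, a ∈ w ∨ a = t) (hp : ∀ A ∈ bs, p ∉ A)
    (k : Fin 3) :
    Z (fun f => wt bs f * ((if f p = k then 1 else 0) * (if f t = k then 1 else 0))) w = 1 := by
  set G : Fin 3 → ZMod 2 := fun k =>
    Z (fun f => wt bs f * ((if f p = k then 1 else 0) * (if f t = k then 1 else 0))) w with hG
  have hrot : ∀ k, G k = G (k + 1) := by
    intro k
    rw [hG]
    simp only
    rw [← Z_rot (fun f => wt bs f * ((if f p = k + 1 then 1 else 0) *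
      (if f t = k + 1 then 1 else 0))) w]
    apply Z_congr
    intro f
    rw [wt_rot]
    simp
  have hsum : G 0 + G 1 + G 2 = Z (fun f => wt bs f * (if f t = f p then 1 else 0)) w := by
    rw [hG]
    simp only
    rw [← Z_add, ← Z_add]
    apply Z_congr
    intro f
    rw [← mul_add, ← mul_add]
    congr 1
    generalize f p = x
    generalize f t = y
    revert x y; decide
  have hval : Z (fun f => wt bs f * (if f t = f p then 1 else 0)) w = 1 := by
    by_cases hex : ∃ C ∈ bs, t ∈ C
    · obtain ⟨C, hC, htC⟩ := hex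
      obtain ⟨c1, c2, hCe, h1, h2, h3⟩ := exists_triple (hcard C hC) htC
      have hpC : p ∉ C := hp C hC
      have hpc1 : p ≠ c1 := by rintro rfl; exact hpC (by rw [hCe]; simp)
      have hpc2 : p ≠ c2 := by rintro rfl; exact hpC (by rw [hCe]; simp)
      have hnot : ∀ A ∈ bs.erase C, ∀ x ∈ C, x ∉ A := by
        intro A hA x hx hxA
        have := hdisj A (Finset.mem_of_mem_erase hA) C hC (Finset.ne_of_mem_erase hA)
        exact (Finset.disjoint_left.1 this) hxA hx
      have hnew : ({p, c1, c2} : Finset α) ∉ bs.erase C := by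
        intro hmem
        exact hp _ (Finset.mem_of_mem_erase hmem) (by simp)
      rw [Z_sumout _ (fun f => wt (insert {p, c1, c2} (bs.erase C)) f * pin ∅ s f) w t htw]
      · apply ih
        · rw [Finset.card_insert_of_notMem hnew, Finset.card_erase_of_mem hC]
          have : 0 < bs.card := Finset.card_pos.2 ⟨C, hC⟩
          omega
        · refine ⟨hw, ?_, ?_, by simp, by simp, by simp, ?_⟩
          · intro A hA
            rcases Finset.mem_insert.1 hA with rfl | hA
            · rw [Finset.card_eq_three]
              exact ⟨p, c1, c2, hpc1, hpc2, h3, rfl⟩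
            · exact hcard A (Finset.mem_of_mem_erase hA)
          · have key : ∀ B ∈ bs.erase C, Disjoint ({p, c1, c2} : Finset α) B := by
              intro B hB
              rw [Finset.disjoint_left]
              intro x hx
              simp only [Finset.mem_insert, Finset.mem_singleton] at hx
              rcases hx with rfl | rfl | rfl
              · exact hp B (Finset.mem_of_mem_erase hB)
              · exact hnot B hB _ (by rw [hCe]; simp)
              · exact hnot B hB _ (by rw [hCe]; simp)
            intro A hA B hB hAB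
            rcases Finset.mem_insert.1 hA with rfl | hA
            · rcases Finset.mem_insert.1 hB with rfl | hB
              · exact absurd rfl hAB
              · exact key B hB
            · rcases Finset.mem_insert.1 hB with rfl | hB
              · exact (key A hA).symm
              · exact hdisj A (Finset.mem_of_mem_erase hA) B (Finset.mem_of_mem_erase hB) hAB
          · intro A hA a ha
            left
            rcases Finset.mem_insert.1 hA with rfl | hA
            · simp only [Finset.mem_insert, Finset.mem_singleton] at ha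
              rcases ha with rfl | rfl | rfl
              · exact hpw
              · exact (hcov C hC a (by rw [hCe]; simp)).resolve_right h1.symm
              · exact (hcov C hC a (by rw [hCe]; simp)).resolve_right h2.symm
            · refine (hcov A (Finset.mem_of_mem_erase hA) a ha).resolve_right ?_
              rintro rfl
              exact hnot A hA _ htC ha
      · intro f
        have hind : Ind (wt (bs.erase C)) t := wt_ind _ _ (fun A hA => hnot A hA t htC)
        have e1 : ∀ x, wt bs (update f t x) * (if (update f t x) t = (update f t x) p then 1 else 0)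
            = (Y3 x (f c1) (f c2) * (if x = f p then 1 else 0)) * wt (bs.erase C) f := by
          intro x
          rw [wt_erase hC, hind, hCe, Y_triple _ _ _ _ h1 h2 h3, update_self, update_of_ne hpt,
            update_of_ne h1.symm, update_of_ne h2.symm]
          ring
        simp only [e1]
        rw [← Finset.sum_mul, wt_insert hnew, Y_triple _ _ _ _ hpc1 hpc2 h3]
        unfold pin
        rw [Finset.prod_empty, mul_one]
        congr 1
        generalize f p = x
        generalize f c1 = y
        generalize f c2 = z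
        revert x y z; decide
    · push Not at hex
      rw [Z_sumout _ (fun f => wt bs f * pin ∅ s f) w t htw]
      · apply ih _ _ _ _ hn
        refine ⟨hw, hcard, hdisj, by simp, by simp, by simp, ?_⟩
        intro A hA a ha
        left
        refine (hcov A hA a ha).resolve_right ?_
        rintro rfl
        exact hex A hA ha
      · intro f
        have hind : Ind (wt bs) t := wt_ind _ _ hex
        have e1 : ∀ x, wt bs (update f t x) * (if (update f t x) t = (update f t x) p then 1 else 0)
            = wt bs f * (if x = f p then 1 else 0) := by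
          intro x
          rw [hind, update_self, update_of_ne hpt]
        simp only [e1]
        rw [← Finset.mul_sum]
        congr 1
        unfold pin
        simp
  rw [hval] at hsum
  have h0 : G 0 = G 1 := hrot 0
  have h1 : G 1 = G 2 := hrot 1
  have h2 := add_self3 _ _ _ h0 h1 hsum
  have h3 : G 1 = 1 := h0 ▸ h2
  have h4 : G 2 = 1 := h1 ▸ h3
  fin_cases k
  · exact h2
  · exact h3
  · exact h4

end Pool.Agent.H61.CPT
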