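import Pool.Agent.H61.CPT.Parity

set_option autoImplicit false
set_option linter.unusedSectionVars false
set_option linter.unusedSimpArgs false

namespace Pool.Agent.H61.CPT

open Finset Function

variable {α : Type*} [Fintype α] [DecidableEq α]

lemma Q_identity (p q r t : Fin 3) :
    ∑ y, ∑ x, (Y3 x p q * Y3 y r t * (if x ≠ y then 1 else 0)) = Y3 r p q + Y3 t p q := by
  revert p q r t; decide

/-- `rest` data after removing two blocks. -/
lemma mem_or_of_mem {w₁ w₂ : List α} {u v a : α} (h : a ∈ w₁ ++ u :: v :: w₂) (hu : a ≠ u)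
    (hv : a ≠ v) : a ∈ w₁ ++ w₂ := by
  simp only [List.mem_append, List.mem_cons] at h ⊢
  tauto

/-- the configuration with `A`, `B` replaced by `{b, a1, a2}`. -/
lemma cfg_new {J : Finset (Fin 3)} {s : Fin 3 → α} {bs : Finset (Finset α)} {w₁ w₂ : List α}
    {u v a1 a2 : α} {A B : Finset α} (hc : Cfg J s bs (w₁ ++ u :: v :: w₂))
    (hA : A ∈ bs) (hB : B ∈ bs) (hAB : A ≠ B) (hAe : A = {u, a1, a2})
    (h1 : u ≠ a1) (h2 : u ≠ a2) (h3 : a1 ≠ a2) (huv : u ∈ A) (hv : v ∈ B)
    (b : α) (hb : b ∈ B) (hbv : b ≠ v) (hbp : ∀ j ∈ J, s j ≠ b) :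
    Cfg J s (insert {b, a1, a2} ((bs.erase A).erase B)) (w₁ ++ w₂) ∧
    (insert {b, a1, a2} ((bs.erase A).erase B)).card < bs.card ∧
    ({b, a1, a2} : Finset α) ∉ ((bs.erase A).erase B) := by
  have hdAB := hc.disj A hA B hB hAB
  have ha1A : a1 ∈ A := by rw [hAe]; simp
  have ha2A : a2 ∈ A := by rw [hAe]; simp
  have hnA : ∀ C ∈ (bs.erase A).erase B, ∀ x ∈ A, x ∉ C := by
    intro C hC x hx hxC
    have hC2 := Finset.mem_of_mem_erase hC
    exact (Finset.disjoint_left.1 (hc.disj C (Finset.mem_of_mem_erase hC2) A hA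
      (Finset.ne_of_mem_erase hC2))) hxC hx
  have hnB : ∀ C ∈ (bs.erase A).erase B, ∀ x ∈ B, x ∉ C := by
    intro C hC x hx hxC
    have hC2 := Finset.mem_of_mem_erase hC
    exact (Finset.disjoint_left.1 (hc.disj C (Finset.mem_of_mem_erase hC2) B hB
      (Finset.ne_of_mem_erase hC))) hxC hx
  have hba1 : b ≠ a1 := by
    rintro rfl; exact (Finset.disjoint_left.1 hdAB) ha1A hb
  have hba2 : b ≠ a2 := by
    rintro rfl; exact (Finset.disjoint_left.1 hdAB) ha2A hb
  have hnew : ({b, a1, a2} : Finset α) ∉ ((bs.erase A).erase B) := by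
    intro h
    exact hnB _ h b hb (by simp)
  have hbsmem : ∀ C ∈ (bs.erase A).erase B, C ∈ bs := fun C hC =>
    Finset.mem_of_mem_erase (Finset.mem_of_mem_erase hC)
  have hnotw : ∀ x, x ∉ A → x ≠ v → x ∈ w₁ ++ u :: v :: w₂ → x ∈ w₁ ++ w₂ := by
    intro x hx hxv hm
    refine mem_or_of_mem hm ?_ hxv
    rintro rfl; exact hx huv
  refine ⟨⟨?_, ?_, ?_, hc.inj, ?_, ?_, ?_⟩, ?_, hnew⟩
  · have := hc.nodup
    have hsub : (w₁ ++ w₂).Sublist (w₁ ++ u :: v :: w₂) :=
      List.Sublist.append (List.Sublist.refl _)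
        (((List.Sublist.refl w₂).cons v).cons u)
    exact this.sublist hsub
  · intro C hC
    rcases Finset.mem_insert.1 hC with rfl | hC
    · rw [Finset.card_eq_three]
      exact ⟨b, a1, a2, hba1, hba2, h3, rfl⟩
    · exact hc.card C (hbsmem C hC)
  · have key : ∀ C ∈ (bs.erase A).erase B, Disjoint ({b, a1, a2} : Finset α) C := by
      intro C hC
      rw [Finset.disjoint_left]
      intro x hx
      simp only [Finset.mem_insert, Finset.mem_singleton] at hx
      rcases hx with rfl | rfl | rfl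
      · exact hnB C hC _ hb
      · exact hnA C hC _ ha1A
      · exact hnA C hC _ ha2A
    intro C hC D hD hCD
    rcases Finset.mem_insert.1 hC with rfl | hC
    · rcases Finset.mem_insert.1 hD with rfl | hD
      · exact absurd rfl hCD
      · exact key D hD
    · rcases Finset.mem_insert.1 hD with rfl | hD
      · exact (key C hC).symm
      · exact hc.disj C (hbsmem C hC) D (hbsmem D hD) hCD
  · intro j hj hm
    apply hc.pinw j hj
    simp only [List.mem_append, List.mem_cons] at hm ⊢
    tauto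
  · intro C hC i hi j hj hiC hjC
    rcases Finset.mem_insert.1 hC with rfl | hC
    · apply hc.one A hA i hi j hj
      · simp only [Finset.mem_insert, Finset.mem_singleton] at hiC
        rcases hiC with h | h | h
        · exact absurd h (hbp i hi)
        · rw [h]; exact ha1A
        · rw [h]; exact ha2A
      · simp only [Finset.mem_insert, Finset.mem_singleton] at hjC
        rcases hjC with h | h | h
        · exact absurd h (hbp j hj)
        · rw [h]; exact ha1A
        · rw [h]; exact ha2A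
    · exact hc.one C (hbsmem C hC) i hi j hj hiC hjC
  · intro C hC a ha
    rcases Finset.mem_insert.1 hC with rfl | hC
    · simp only [Finset.mem_insert, Finset.mem_singleton] at ha
      rcases ha with rfl | rfl | rfl
      · rcases hc.cov B hB a hb with h | h
        · left
          exact hnotw a (fun hh => (Finset.disjoint_left.1 hdAB) hh hb) hbv h
        · right; exact h
      · rcases hc.cov A hA a ha1A with h | h
        · left
          refine mem_or_of_mem h h1.symm ?_
          rintro rfl; exact (Finset.disjoint_left.1 hdAB) ha1A hv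
        · right; exact h
      · rcases hc.cov A hA a ha2A with h | h
        · left
          refine mem_or_of_mem h h2.symm ?_
          rintro rfl; exact (Finset.disjoint_left.1 hdAB) ha2A hv
        · right; exact h
    · rcases hc.cov C (hbsmem C hC) a ha with h | h
      · left
        refine mem_or_of_mem h ?_ ?_
        · rintro rfl; exact hnA C hC a huv ha
        · rintro rfl; exact hnB C hC a hv ha
      · right; exact h
  · rw [Finset.card_insert_of_notMem hnew]
    have hB' : B ∈ bs.erase A := Finset.mem_erase.2 ⟨hAB.symm, hB⟩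
    rw [Finset.card_erase_of_mem hB', Finset.card_erase_of_mem hA]
    have h1 : 1 < bs.card := Finset.one_lt_card.2 ⟨A, hA, B, hB, hAB⟩
    omega

/-- expansion of the swap defect for letters in different blocks. -/
lemma defect_expand {J : Finset (Fin 3)} {s : Fin 3 → α} {bs : Finset (Finset α)} {w₁ w₂ : List α}
    {u v a1 a2 b1 b2 : α} {A B : Finset α} (hc : Cfg J s bs (w₁ ++ u :: v :: w₂))
    (hA : A ∈ bs) (hB : B ∈ bs) (hAB : A ≠ B) (hAe : A = {u, a1, a2})
    (h1 : u ≠ a1) (h2 : u ≠ a2) (h3 : a1 ≠ a2) (hBe : B = {v, b1, b2})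
    (k1 : v ≠ b1) (k2 : v ≠ b2) (k3 : b1 ≠ b2) :
    Z (fun f => (wt bs f * pin J s f) * (if f u ≠ f v then 1 else 0)) (w₁ ++ w₂) =
    Z (fun f => (Y {b1, a1, a2} f * wt ((bs.erase A).erase B) f) * pin J s f) (w₁ ++ w₂) +
    Z (fun f => (Y {b2, a1, a2} f * wt ((bs.erase A).erase B) f) * pin J s f) (w₁ ++ w₂) := by
  have hdAB := hc.disj A hA B hB hAB
  have huA : u ∈ A := by rw [hAe]; simp
  have ha1A : a1 ∈ A := by rw [hAe]; simp
  have ha2A : a2 ∈ A := by rw [hAe]; simp
  have hvB : v ∈ B := by rw [hBe]; simp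
  have hb1B : b1 ∈ B := by rw [hBe]; simp
  have hb2B : b2 ∈ B := by rw [hBe]; simp
  have hne : ∀ x ∈ A, ∀ y ∈ B, x ≠ y := fun x hx y hy => by
    rintro rfl; exact (Finset.disjoint_left.1 hdAB) hx hy
  have hu : u ∉ w₁ ++ w₂ := by
    have := hc.nodup
    rw [List.nodup_middle] at this
    intro h
    apply (List.nodup_cons.1 this).1
    simp only [List.mem_append, List.mem_cons] at h ⊢
    tauto
  have hv : v ∉ w₁ ++ w₂ := by
    have := hc.nodup
    rw [List.nodup_middle] at this
    have := (List.nodup_cons.1 this).2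
    rw [List.nodup_middle] at this
    exact (List.nodup_cons.1 this).1
  rw [← Z_add]
  apply Z_sumout2 _ _ _ u v hu hv
  intro f
  have hB' : B ∈ bs.erase A := Finset.mem_erase.2 ⟨hAB.symm, hB⟩
  have hnA : ∀ C ∈ (bs.erase A).erase B, ∀ x ∈ A, x ∉ C := by
    intro C hC x hx hxC
    have hC2 := Finset.mem_of_mem_erase hC
    exact (Finset.disjoint_left.1 (hc.disj C (Finset.mem_of_mem_erase hC2) A hA
      (Finset.ne_of_mem_erase hC2))) hxC hx
  have hnB : ∀ C ∈ (bs.erase A).erase B, ∀ x ∈ B, x ∉ C := by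
    intro C hC x hx hxC
    have hC2 := Finset.mem_of_mem_erase hC
    exact (Finset.disjoint_left.1 (hc.disj C (Finset.mem_of_mem_erase hC2) B hB
      (Finset.ne_of_mem_erase hC))) hxC hx
  have iu : Ind (wt ((bs.erase A).erase B)) u := wt_ind _ _ (fun C hC => hnA C hC u huA)
  have iv : Ind (wt ((bs.erase A).erase B)) v := wt_ind _ _ (fun C hC => hnB C hC v hvB)
  have pu : Ind (pin J s) u := pin_ind _ _ _ (fun j hj e => hc.pinw j hj (by
    rw [e]; simp))
  have pv : Ind (pin J s) v := pin_ind _ _ _ (fun j hj e => hc.pinw j hj (by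
    rw [e]; simp))
  have e1 : ∀ y x : Fin 3, (wt bs (update (update f v y) u x) *
      pin J s (update (update f v y) u x)) *
      (if (update (update f v y) u x) u ≠ (update (update f v y) u x) v then 1 else 0) =
      (Y3 x (f a1) (f a2) * Y3 y (f b1) (f b2) * (if x ≠ y then 1 else 0)) *
      (wt ((bs.erase A).erase B) f * pin J s f) := by
    intro y x
    rw [wt_erase hA, wt_erase hB', iu, iv, pu, pv, hAe, hBe, Y_triple _ _ _ _ h1 h2 h3,
      Y_triple _ _ _ _ k1 k2 k3]
    simp only [update_self, update_of_ne h1.symm, update_of_ne h2.symm, update_of_ne k1.symm,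
      update_of_ne k2.symm, update_of_ne (hne u huA v hvB).symm,
      update_of_ne (hne a1 ha1A v hvB), update_of_ne (hne a2 ha2A v hvB),
      update_of_ne (hne u huA b1 hb1B).symm, update_of_ne (hne u huA b2 hb2B).symm]
    ring
  simp only [e1]
  rw [Finset.sum_congr rfl (fun y _ => (Finset.sum_mul _ _ _).symm), ← Finset.sum_mul, Q_identity,
    Y_triple _ _ _ _ (hne a1 ha1A b1 hb1B).symm (hne a2 ha2A b1 hb1B).symm h3,
    Y_triple _ _ _ _ (hne a1 ha1A b2 hb2B).symm (hne a2 ha2A b2 hb2B).symm h3]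
  ring

end Pool.Agent.H61.CPT
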