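import Pool.Agent.H61.CPT.Parity2

set_option autoImplicit false
set_option linter.unusedSectionVars false
set_option linter.unusedSimpArgs false

namespace Pool.Agent.H61.CPT

open Finset Function

variable {α : Type*} [Fintype α] [DecidableEq α]

lemma third (i j : Fin 3) (h : i ≠ j) : ∃ k, k ≠ i ∧ k ≠ j ∧ (∀ x, Y3 j i x = if x = k then 1 else 0) ∧
    ∀ m : Fin 3, m ≠ i → m ≠ j → m = k := by
  revert i j; decide

/-- the case where both blocks carry a pinned letter. -/
lemma both_pinned {n : ℕ} (ih : IH α n) {J : Finset (Fin 3)} {s : Fin 3 → α}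
    {bs : Finset (Finset α)} {w₁ w₂ : List α} (hn : bs.card ≤ n)
    {u v a2 b2 : α} {A B : Finset α} {i j : Fin 3} (hc : Cfg J s bs (w₁ ++ u :: v :: w₂))
    (hA : A ∈ bs) (hB : B ∈ bs) (hAB : A ≠ B) (hi : i ∈ J) (hj : j ∈ J) (hij : i ≠ j)
    (hAe : A = {u, s i, a2}) (h1 : u ≠ s i) (h2 : u ≠ a2) (h3 : s i ≠ a2)
    (hBe : B = {v, s j, b2}) (k1 : v ≠ s j) (k2 : v ≠ b2) (k3 : s j ≠ b2) :
    Z (fun f => (Y {s j, s i, a2} f * wt ((bs.erase A).erase B) f) * pin J s f) (w₁ ++ w₂) = 1 := by
  have hdAB := hc.disj A hA B hB hAB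
  have huA : u ∈ A := by rw [hAe]; simp
  have hsiA : s i ∈ A := by rw [hAe]; simp
  have ha2A : a2 ∈ A := by rw [hAe]; simp
  have hvB : v ∈ B := by rw [hBe]; simp
  have hsjB : s j ∈ B := by rw [hBe]; simp
  have hne : ∀ x ∈ A, ∀ y ∈ B, x ≠ y := fun x hx y hy => by
    rintro rfl; exact (Finset.disjoint_left.1 hdAB) hx hy
  have hB' : B ∈ bs.erase A := Finset.mem_erase.2 ⟨hAB.symm, hB⟩
  have hnA : ∀ C ∈ (bs.erase A).erase B, ∀ x ∈ A, x ∉ C := by
    intro C hC x hx hxC
    have hC2 := Finset.mem_of_mem_erase hC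
    exact (Finset.disjoint_left.1 (hc.disj C (Finset.mem_of_mem_erase hC2) A hA
      (Finset.ne_of_mem_erase hC2))) hxC hx
  have hnB : ∀ C ∈ (bs.erase A).erase B, ∀ x ∈ B, x ∉ C := by
    intro C hC x hx hxC
    have hC2 := Finset.mem_of_mem_erase hC
    exact (Finset.disjoint_left.1 (hc.disj C (Finset.mem_of_mem_erase hC2) B hB
      (Finset.ne_of_mem_erase hC))) hxC hx
  have hbsmem : ∀ C ∈ (bs.erase A).erase B, C ∈ bs := fun C hC =>
    Finset.mem_of_mem_erase (Finset.mem_of_mem_erase hC)
  have hmemw : ∀ x, x ∈ w₁ ++ w₂ → x ∈ w₁ ++ u :: v :: w₂ := by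
    intro x hx
    simp only [List.mem_append, List.mem_cons] at hx ⊢
    tauto
  have hsiw : s i ∉ w₁ ++ w₂ := fun h => hc.pinw i hi (hmemw _ h)
  have hsjw : s j ∉ w₁ ++ w₂ := fun h => hc.pinw j hj (hmemw _ h)
  have hnodup : (w₁ ++ w₂).Nodup := by
    have hsub : (w₁ ++ w₂).Sublist (w₁ ++ u :: v :: w₂) :=
      List.Sublist.append (List.Sublist.refl _)
        (((List.Sublist.refl w₂).cons v).cons u)
    exact hc.nodup.sublist hsub
  obtain ⟨k, hki, hkj, hk, hkall⟩ := third i j hij
  have hsne : ∀ m ∈ J, m ≠ i → s m ≠ s i := fun m hm hmi e => hmi (hc.inj hm hi e)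
  have hsne' : ∀ m ∈ J, m ≠ j → s m ≠ s j := fun m hm hmj e => hmj (hc.inj hm hj e)
  -- a2 is in the word
  have ha2w : a2 ∈ w₁ ++ w₂ := by
    rcases hc.cov A hA a2 ha2A with h | ⟨m, hm, e⟩
    · exact mem_or_of_mem h h2.symm (hne a2 ha2A v hvB)
    · have : m = i := hc.one A hA m hm i hi (by rw [e]; exact ha2A) hsiA
      rw [this] at e
      exact absurd e h3
  have i1 : Ind (wt ((bs.erase A).erase B)) (s i) := wt_ind _ _ (fun C hC => hnA C hC _ hsiA)
  have i2 : Ind (wt ((bs.erase A).erase B)) (s j) := wt_ind _ _ (fun C hC => hnB C hC _ hsjB)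
  have hji : j ∈ J.erase i := Finset.mem_erase.2 ⟨hij.symm, hj⟩
  have p1 : Ind (pin ((J.erase i).erase j) s) (s i) := by
    apply pin_ind
    intro m hm
    have hm2 := Finset.mem_of_mem_erase hm
    exact hsne m (Finset.mem_of_mem_erase hm2) (Finset.ne_of_mem_erase hm2)
  have p2 : Ind (pin ((J.erase i).erase j) s) (s j) := by
    apply pin_ind
    intro m hm
    have hm2 := Finset.mem_of_mem_erase hm
    exact hsne' m (Finset.mem_of_mem_erase hm2) (Finset.ne_of_mem_erase hm)
  have hpin : ∀ f : α → Fin 3, pin J s f = (if f (s i) = i then 1 else 0) *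
      ((if f (s j) = j then 1 else 0) * pin ((J.erase i).erase j) s f) := by
    intro f
    unfold pin
    rw [Finset.mul_prod_erase (J.erase i) (fun j => if f (s j) = j then (1 : ZMod 2) else 0) hji,
      Finset.mul_prod_erase J (fun j => if f (s j) = j then (1 : ZMod 2) else 0) hi]
  have hsisj : s i ≠ s j := hne _ hsiA _ hsjB
  have ha2sj : a2 ≠ s j := hne _ ha2A _ hsjB
  rw [Z_sumout2 _ (fun f => wt ((bs.erase A).erase B) f * ((if f a2 = k then 1 else 0) *
    pin ((J.erase i).erase j) s f)) (w₁ ++ w₂) (s i) (s j) hsiw hsjw]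
  · -- evaluate
    have hJ' : ∀ m ∈ (J.erase i).erase j, m = k := by
      intro m hm
      have hm2 := Finset.mem_of_mem_erase hm
      exact hkall m (Finset.ne_of_mem_erase hm2) (Finset.ne_of_mem_erase hm)
    have hcard' : ((bs.erase A).erase B).card < n := by
      rw [Finset.card_erase_of_mem hB', Finset.card_erase_of_mem hA]
      have : 0 < bs.card := Finset.card_pos.2 ⟨A, hA⟩
      have h1 : 1 < bs.card := Finset.one_lt_card.2 ⟨A, hA, B, hB, hAB⟩
      omega
    have hcovr : ∀ C ∈ (bs.erase A).erase B, ∀ a ∈ C, a ∈ w₁ ++ w₂ ∨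
        ∃ m ∈ (J.erase i).erase j, s m = a := by
      intro C hC a ha
      rcases hc.cov C (hbsmem C hC) a ha with h | ⟨m, hm, e⟩
      · left
        refine mem_or_of_mem h ?_ ?_
        · rintro rfl; exact hnA C hC a huA ha
        · rintro rfl; exact hnB C hC a hvB ha
      · right
        refine ⟨m, ?_, e⟩
        refine Finset.mem_erase.2 ⟨?_, Finset.mem_erase.2 ⟨?_, hm⟩⟩
        · rintro rfl; exact hnB C hC _ hsjB (e ▸ ha)
        · rintro rfl; exact hnA C hC _ hsiA (e ▸ ha)
    by_cases hkJ : k ∈ (J.erase i).erase j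
    · have hJe : (J.erase i).erase j = {k} := by
        ext m
        rw [Finset.mem_singleton]
        exact ⟨hJ' m, fun h => h ▸ hkJ⟩
      have hkJ0 : k ∈ J := Finset.mem_of_mem_erase (Finset.mem_of_mem_erase hkJ)
      have := claimD2 ih s ((bs.erase A).erase B) (w₁ ++ w₂) hcard' a2 (s k)
        (by rintro rfl; exact hc.pinw k hkJ0 (hmemw _ ha2w))
        (fun h => hc.pinw k hkJ0 (hmemw _ h)) ha2w
        (fun C hC => hc.card C (hbsmem C hC))
        (fun C hC D hD => hc.disj C (hbsmem C hC) D (hbsmem D hD)) hnodup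
        (by
          intro C hC a ha
          rcases hcovr C hC a ha with h | ⟨m, hm, e⟩
          · exact Or.inl h
          · right
            rw [← e, hJ' m hm])
        (fun C hC => hnA C hC a2 ha2A) k
      refine Eq.trans (Z_congr _ ?_) this
      intro f
      congr 2
      rw [hJe]
      unfold pin
      rw [Finset.prod_singleton]
    · have hJe : (J.erase i).erase j = ∅ := by
        rw [Finset.eq_empty_iff_forall_notMem]
        intro m hm
        exact hkJ (hJ' m hm ▸ hm)
      have := claimD1 ih s ((bs.erase A).erase B) (w₁ ++ w₂) hcard'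
        ⟨hnodup, fun C hC => hc.card C (hbsmem C hC),
          fun C hC D hD => hc.disj C (hbsmem C hC) D (hbsmem D hD), by simp, by simp, by simp,
          by
            intro C hC a ha
            rcases hcovr C hC a ha with h | ⟨m, hm, e⟩
            · exact Or.inl h
            · rw [hJe] at hm; simp at hm⟩ a2 k
      refine Eq.trans (Z_congr _ ?_) this
      intro f
      congr 1
      rw [hJe]
      unfold pin
      rw [Finset.prod_empty, mul_one]
  · intro f
    have e1 : ∀ y x : Fin 3, (Y {s j, s i, a2} (update (update f (s j) y) (s i) x) *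
        wt ((bs.erase A).erase B) (update (update f (s j) y) (s i) x)) *
        pin J s (update (update f (s j) y) (s i) x) =
        (Y3 y x (f a2) * ((if x = i then 1 else 0) * (if y = j then 1 else 0))) *
        (wt ((bs.erase A).erase B) f * pin ((J.erase i).erase j) s f) := by
      intro y x
      rw [hpin, i1, i2, p1, p2, Y_triple _ _ _ _ hsisj.symm ha2sj.symm h3]
      simp only [update_self, update_of_ne hsisj.symm, update_of_ne h3.symm,
        update_of_ne ha2sj]
      ring
    simp only [e1]
    rw [Finset.sum_congr rfl (fun y _ => (Finset.sum_mul _ _ _).symm), ← Finset.sum_mul]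
    have e2 : ∑ y, ∑ x, (Y3 y x (f a2) * ((if x = i then 1 else 0) * (if y = j then 1 else 0))) =
        Y3 j i (f a2) := by
      have e3 : ∀ i j z : Fin 3, ∑ y, ∑ x, (Y3 y x z *
          ((if x = i then (1 : ZMod 2) else 0) * (if y = j then 1 else 0))) = Y3 j i z := by
        decide
      exact e3 i j (f a2)
    rw [e2, hk]
    ring

/-- vanishing of the swap defect. -/
lemma defect_zero {n : ℕ} (ih : IH α n) {J : Finset (Fin 3)} {s : Fin 3 → α}
    {bs : Finset (Finset α)} {w₁ w₂ : List α} (hn : bs.card ≤ n)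
    {u v : α} (hc : Cfg J s bs (w₁ ++ u :: v :: w₂)) :
    Z (fun f => (wt bs f * pin J s f) * (if f u ≠ f v then 1 else 0)) (w₁ ++ w₂) = 0 := by
  have hu : u ∉ v :: (w₁ ++ w₂) := by
    have := hc.nodup
    rw [List.nodup_middle] at this
    intro h
    apply (List.nodup_cons.1 this).1
    simp only [List.mem_append, List.mem_cons] at h ⊢
    tauto
  have huv : u ≠ v := by rintro rfl; exact hu (by simp)
  have hu' : u ∉ w₁ ++ w₂ := fun h => hu (by
    simp only [List.mem_append, List.mem_cons] at h ⊢
    tauto)
  have hv : v ∉ w₁ ++ w₂ := by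
    have := hc.nodup
    rw [List.nodup_middle] at this
    have := (List.nodup_cons.1 this).2
    rw [List.nodup_middle] at this
    exact (List.nodup_cons.1 this).1
  have pu : Ind (pin J s) u := pin_ind _ _ _ (fun j hj e => hc.pinw j hj (by
    rw [e]; simp))
  have pv : Ind (pin J s) v := pin_ind _ _ _ (fun j hj e => hc.pinw j hj (by
    rw [e]; simp))
  by_cases hub : ∀ A ∈ bs, u ∉ A
  · rw [Z_sumout _ (fun _ => 0) _ u hu' ?_, Z_zero]
    intro f
    have iu : Ind (wt bs) u := wt_ind _ _ hub
    have e1 : ∀ x, (wt bs (update f u x) * pin J s (update f u x)) *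
        (if (update f u x) u ≠ (update f u x) v then 1 else 0) =
        (wt bs f * pin J s f) * (if x ≠ f v then 1 else 0) := by
      intro x
      rw [iu, pu, update_self, update_of_ne huv.symm]
    simp only [e1]
    rw [← Finset.mul_sum]
    have : ∀ y : Fin 3, ∑ x, (if x ≠ y then (1 : ZMod 2) else 0) = 0 := by decide
    rw [this, mul_zero]
  by_cases hvb : ∀ A ∈ bs, v ∉ A
  · rw [Z_sumout _ (fun _ => 0) _ v hv ?_, Z_zero]
    intro f
    have iv : Ind (wt bs) v := wt_ind _ _ hvb
    have e1 : ∀ x, (wt bs (update f v x) * pin J s (update f v x)) *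
        (if (update f v x) u ≠ (update f v x) v then 1 else 0) =
        (wt bs f * pin J s f) * (if f u ≠ x then 1 else 0) := by
      intro x
      rw [iv, pv, update_self, update_of_ne huv]
    simp only [e1]
    rw [← Finset.mul_sum]
    have : ∀ y : Fin 3, ∑ x, (if y ≠ x then (1 : ZMod 2) else 0) = 0 := by decide
    rw [this, mul_zero]
  push Not at hub hvb
  obtain ⟨A, hA, huA⟩ := hub
  obtain ⟨B, hB, hvB⟩ := hvb
  by_cases hAB : A = B
  · subst hAB
    -- same block
    have hex : ∃ a, A = {u, v, a} ∧ u ≠ a ∧ v ≠ a := by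
      obtain ⟨a1, a2, e, h1, h2, h3⟩ := exists_triple (hc.card A hA) huA
      rw [e] at hvB
      simp only [Finset.mem_insert, Finset.mem_singleton] at hvB
      rcases hvB with h | h | h
      · exact absurd h.symm huv
      · subst h; exact ⟨a2, e, h2, h3⟩
      · subst h
        refine ⟨a1, ?_, h1, h3.symm⟩
        rw [e]; ext x; simp only [Finset.mem_insert, Finset.mem_singleton]; tauto
    obtain ⟨a, e, hua, hva⟩ := hex
    have hnA : ∀ C ∈ bs.erase A, ∀ x ∈ A, x ∉ C := by
      intro C hC x hx hxC
      exact (Finset.disjoint_left.1 (hc.disj C (Finset.mem_of_mem_erase hC) A hA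
        (Finset.ne_of_mem_erase hC))) hxC hx
    rw [Z_sumout2 _ (fun _ => 0) _ u v hu' hv ?_, Z_zero]
    intro f
    have iu : Ind (wt (bs.erase A)) u := wt_ind _ _ (fun C hC => hnA C hC _ huA)
    have iv : Ind (wt (bs.erase A)) v := wt_ind _ _ (fun C hC => hnA C hC _ hvB)
    have e1 : ∀ y x : Fin 3, (wt bs (update (update f v y) u x) *
        pin J s (update (update f v y) u x)) *
        (if (update (update f v y) u x) u ≠ (update (update f v y) u x) v then 1 else 0) =
        (Y3 x y (f a) * (if x ≠ y then 1 else 0)) *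
        (wt (bs.erase A) f * pin J s f) := by
      intro y x
      rw [wt_erase hA, iu, iv, pu, pv, e, Y_triple _ _ _ _ huv hua hva]
      simp only [update_self, update_of_ne huv.symm, update_of_ne hua.symm,
        update_of_ne hva.symm]
      ring
    simp only [e1]
    rw [Finset.sum_congr rfl (fun y _ => (Finset.sum_mul _ _ _).symm), ← Finset.sum_mul]
    have : ∀ z : Fin 3, ∑ y, ∑ x, (Y3 x y z * (if x ≠ y then (1 : ZMod 2) else 0)) = 0 := by
      decide
    rw [this, zero_mul]
  · -- different blocks
    have hdAB := hc.disj A hA B hB hAB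
    obtain ⟨a1, a2, hAe, h1, h2, h3⟩ := exists_triple (hc.card A hA) huA
    obtain ⟨b1, b2, hBe, k1, k2, k3⟩ := exists_triple (hc.card B hB) hvB
    have hB' : B ∈ bs.erase A := Finset.mem_erase.2 ⟨Ne.symm hAB, hB⟩
    have hb1B : b1 ∈ B := by rw [hBe]; simp
    have hb2B : b2 ∈ B := by rw [hBe]; simp
    have ha1A : a1 ∈ A := by rw [hAe]; simp
    have ha2A : a2 ∈ A := by rw [hAe]; simp
    by_cases hpB : ∀ j ∈ J, s j ∉ B
    · rw [defect_expand hc hA hB hAB hAe h1 h2 h3 hBe k1 k2 k3]
      have key : ∀ b ∈ B, b ≠ v → Z (fun f => (Y {b, a1, a2} f * wt ((bs.erase A).erase B) f) *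
          pin J s f) (w₁ ++ w₂) = 1 := by
        intro b hb hbv
        obtain ⟨c1, c2, c3⟩ := cfg_new hc hA hB hAB hAe h1 h2 h3 huA hvB b hb hbv
          (fun j hj e => hpB j hj (e ▸ hb))
        refine Eq.trans (Z_congr _ ?_) (ih _ _ _ _ (lt_of_lt_of_le c2 hn) c1)
        intro f
        rw [wt_insert c3]
      rw [key b1 hb1B k1.symm, key b2 hb2B k2.symm]
      decide
    by_cases hpA : ∀ j ∈ J, s j ∉ A
    · have hc' : Cfg J s bs (w₁ ++ v :: u :: w₂) := hc.perm (by
        apply List.Perm.append_left
        exact List.Perm.swap _ _ _)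
      have hsym : Z (fun f => (wt bs f * pin J s f) * (if f u ≠ f v then 1 else 0)) (w₁ ++ w₂) =
          Z (fun f => (wt bs f * pin J s f) * (if f v ≠ f u then 1 else 0)) (w₁ ++ w₂) := by
        apply Z_congr
        intro f
        congr 1
        simp only [ne_comm]
      rw [hsym, defect_expand hc' hB hA (Ne.symm hAB) hBe k1 k2 k3 hAe h1 h2 h3]
      have key : ∀ a ∈ A, a ≠ u → Z (fun f => (Y {a, b1, b2} f * wt ((bs.erase B).erase A) f) *
          pin J s f) (w₁ ++ w₂) = 1 := by
        intro a ha hau
        obtain ⟨c1, c2, c3⟩ := cfg_new hc' hB hA (Ne.symm hAB) hBe k1 k2 k3 hvB huA a ha hau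
          (fun j hj e => hpA j hj (e ▸ ha))
        refine Eq.trans (Z_congr _ ?_) (ih _ _ _ _ (lt_of_lt_of_le c2 hn) c1)
        intro f
        rw [wt_insert c3]
      rw [key a1 ha1A h1.symm, key a2 ha2A h2.symm]
      decide
    · -- both pinned
      push Not at hpA hpB
      obtain ⟨i, hi, hiA⟩ := hpA
      obtain ⟨j, hj, hjB⟩ := hpB
      have hij : i ≠ j := by
        rintro rfl
        exact (Finset.disjoint_left.1 hdAB) hiA hjB
      have hsiu : s i ≠ u := fun e => hc.pinw i hi (by rw [e]; simp)
      have hsjv : s j ≠ v := fun e => hc.pinw j hj (by rw [e]; simp)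
      -- reorder A
      have hA2 : ∃ a, A = {u, s i, a} ∧ u ≠ a ∧ s i ≠ a := by
        have := hiA
        rw [hAe] at this
        simp only [Finset.mem_insert, Finset.mem_singleton] at this
        rcases this with h | h | h
        · exact absurd h hsiu
        · exact ⟨a2, by rw [h]; exact hAe, h2, by rw [h]; exact h3⟩
        · refine ⟨a1, ?_, h1, by rw [h]; exact h3.symm⟩
          rw [h, hAe]; ext x; simp only [Finset.mem_insert, Finset.mem_singleton]; tauto
      have hB2 : ∃ b, B = {v, s j, b} ∧ v ≠ b ∧ s j ≠ b := by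
        have := hjB
        rw [hBe] at this
        simp only [Finset.mem_insert, Finset.mem_singleton] at this
        rcases this with h | h | h
        · exact absurd h hsjv
        · exact ⟨b2, by rw [h]; exact hBe, k2, by rw [h]; exact k3⟩
        · refine ⟨b1, ?_, k1, by rw [h]; exact k3.symm⟩
          rw [h, hBe]; ext x; simp only [Finset.mem_insert, Finset.mem_singleton]; tauto
      obtain ⟨a, hAe', h2', h3'⟩ := hA2
      obtain ⟨b, hBe', k2', k3'⟩ := hB2
      rw [defect_expand hc hA hB hAB hAe' hsiu.symm h2' h3' hBe' hsjv.symm k2' k3']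
      rw [both_pinned ih hn hc hA hB hAB hi hj hij hAe' hsiu.symm h2' h3' hBe' hsjv.symm k2' k3']
      have hbB : b ∈ B := by rw [hBe']; simp
      have hb : ∀ m ∈ J, s m ≠ b := by
        intro m hm e
        have : m = j := hc.one B hB m hm j hj (by rw [e]; exact hbB) hjB
        rw [this] at e
        exact k3' e
      obtain ⟨c1, c2, c3⟩ := cfg_new hc hA hB hAB hAe' hsiu.symm h2' h3' huA hvB b hbB k2'.symm hb
      have := ih _ _ _ _ (lt_of_lt_of_le c2 hn) c1
      have e2 : Z (fun f => (Y {b, s i, a} f * wt ((bs.erase A).erase B) f) *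
          pin J s f) (w₁ ++ w₂) = 1 := by
        refine Eq.trans (Z_congr _ ?_) this
        intro f
        rw [wt_insert c3]
      rw [e2]
      decide

lemma eq_of_add_zero (a b : ZMod 2) (h : a + b = 0) : a = b := by
  revert a b; decide

/-- invariance under permutation of the word -/
lemma Z_perm {n : ℕ} (ih : IH α n) {J : Finset (Fin 3)} {s : Fin 3 → α}
    {bs : Finset (Finset α)} (hn : bs.card ≤ n) {l l' : List α} (hp : l.Perm l') :
    ∀ pre : List α, Cfg J s bs (pre ++ l) →
      Z (fun f => wt bs f * pin J s f) (pre ++ l) = Z (fun f => wt bs f * pin J s f) (pre ++ l') := by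
  induction hp with
  | nil => intro pre _; rfl
  | cons a h ih' =>
    intro pre hc
    have := ih' (pre ++ [a]) (by simpa using hc)
    simpa using this
  | swap x y l =>
    intro pre hc
    apply eq_of_add_zero
    rw [Z_swap]
    exact defect_zero ih hn hc
  | trans h1 h2 ih1 ih2 =>
    intro pre hc
    rw [ih1 pre hc]
    exact ih2 pre (hc.perm (List.Perm.append_left _ h1))

/-- **The main parity theorem.** -/
theorem main_parity (n : ℕ) : ∀ (J : Finset (Fin 3)) (s : Fin 3 → α) (bs : Finset (Finset α))
    (w : List α), bs.card = n → Cfg J s bs w → Z (fun f => wt bs f * pin J s f) w = 1 := by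
  induction n using Nat.strong_induction_on with
  | _ n ihn =>
  have ih : IH α n := by
    intro J s bs w hlt hc
    exact ihn bs.card hlt J s bs w rfl hc
  intro J s bs w hn hc
  rcases Finset.eq_empty_or_nonempty bs with rfl | ⟨A, hA⟩
  · -- no blocks
    have e1 : ∀ f : α → Fin 3, wt ∅ f * pin J s f = pin J s f := by
      intro f; unfold wt; simp
    rw [Z_congr w e1]
    rw [Z_del_all _ w hc.nodup, Z_pin_nil s J hc.inj]
    intro u hu
    exact pin_ind _ _ _ (fun j hj e => hc.pinw j hj (e ▸ hu))
  · have hnA : ∀ C ∈ bs.erase A, ∀ x ∈ A, x ∉ C := by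
      intro C hC x hx hxC
      exact (Finset.disjoint_left.1 (hc.disj C (Finset.mem_of_mem_erase hC) A hA
        (Finset.ne_of_mem_erase hC))) hxC hx
    have hcard' : (bs.erase A).card < n := by
      rw [Finset.card_erase_of_mem hA, hn]
      have : 0 < bs.card := Finset.card_pos.2 ⟨A, hA⟩
      omega
    by_cases hp : ∃ j ∈ J, s j ∈ A
    · obtain ⟨j, hj, hjA⟩ := hp
      obtain ⟨a, b, hAe, h1, h2, h3⟩ := exists_triple (hc.card A hA) hjA
      have haA : a ∈ A := by rw [hAe]; simp
      have hbA : b ∈ A := by rw [hAe]; simp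
      have hin : ∀ x ∈ A, x ≠ s j → x ∈ w := by
        intro x hx hxj
        rcases hc.cov A hA x hx with h | ⟨m, hm, e⟩
        · exact h
        · have : m = j := hc.one A hA m hm j hj (by rw [e]; exact hx) hjA
          rw [this] at e
          exact absurd e.symm hxj
      have haw := hin a haA h1.symm
      have hbw := hin b hbA h2.symm
      have hbw' : b ∈ w.erase a := by
        rw [hc.nodup.mem_erase_iff]; exact ⟨h3.symm, hbw⟩
      have hperm : w.Perm (a :: b :: (w.erase a).erase b) := by
        refine (List.perm_cons_erase haw).trans ?_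
        exact (List.perm_cons_erase hbw').cons _
      have hc' := hc.perm hperm
      have := Z_perm ih (le_of_eq hn) hperm [] (by simpa using hc)
      simp only [List.nil_append] at this
      rw [this]
      have hnd := hc'.nodup
      rw [List.nodup_cons, List.nodup_cons] at hnd
      have e1 : ∀ f : α → Fin 3, wt bs f * pin J s f =
          Y {s j, a, b} f * (wt (bs.erase A) f * pin J s f) := by
        intro f
        rw [wt_erase hA, ← mul_assoc]
        conv_lhs => rw [hAe]
        rw [← hAe]
      rw [Z_congr _ e1]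
      have haw2 : a ∉ (w.erase a).erase b := fun h => hnd.1 (List.mem_cons_of_mem _ h)
      rw [Z_eval2 (fun f => wt (bs.erase A) f * pin J s f) (s j) a b _ h1 h2 h3 haw2 hnd.2.1]
      · apply ih _ _ _ _ hcard'
        refine ⟨hnd.2.2, fun C hC => hc.card C (Finset.mem_of_mem_erase hC),
          fun C hC D hD => hc.disj C (Finset.mem_of_mem_erase hC) D (Finset.mem_of_mem_erase hD),
          hc.inj, ?_, fun C hC => hc.one C (Finset.mem_of_mem_erase hC), ?_⟩
        · intro m hm h
          exact hc'.pinw m hm (List.mem_cons_of_mem _ (List.mem_cons_of_mem _ h))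
        · intro C hC x hx
          rcases hc'.cov C (Finset.mem_of_mem_erase hC) x hx with h | h
          · left
            rcases List.mem_cons.1 h with rfl | h
            · exact absurd hx (hnA C hC x haA)
            · rcases List.mem_cons.1 h with rfl | h
              · exact absurd hx (hnA C hC x hbA)
              · exact h
          · exact Or.inr h
      · intro f x
        show wt _ _ * pin _ _ _ = _
        rw [wt_ind _ a (fun C hC => hnA C hC a haA), pin_ind _ _ a]
        rintro m hm rfl
        exact hc.pinw m hm haw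
      · intro f x
        show wt _ _ * pin _ _ _ = _
        rw [wt_ind _ b (fun C hC => hnA C hC b hbA), pin_ind _ _ b]
        rintro m hm rfl
        exact hc.pinw m hm hbw
    · push Not at hp
      obtain ⟨a, b, c, h1, h2, h3, hAe⟩ := Finset.card_eq_three.1 (hc.card A hA)
      have hin : ∀ x ∈ A, x ∈ w := by
        intro x hx
        rcases hc.cov A hA x hx with h | ⟨m, hm, e⟩
        · exact h
        · exact absurd (e ▸ hx) (hp m hm)
      have haA : a ∈ A := by rw [hAe]; simp
      have hbA : b ∈ A := by rw [hAe]; simp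
      have hcA : c ∈ A := by rw [hAe]; simp
      have haw := hin a haA
      have hbw := hin b hbA
      have hcw := hin c hcA
      have hbw' : b ∈ w.erase a := by
        rw [hc.nodup.mem_erase_iff]; exact ⟨h1.symm, hbw⟩
      have hcw' : c ∈ (w.erase a).erase b := by
        rw [(hc.nodup.erase a).mem_erase_iff, hc.nodup.mem_erase_iff]
        exact ⟨h3.symm, h2.symm, hcw⟩
      have hperm : w.Perm (a :: b :: c :: ((w.erase a).erase b).erase c) := by
        refine (List.perm_cons_erase haw).trans ?_
        refine List.Perm.cons _ ?_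
        refine (List.perm_cons_erase hbw').trans ?_
        exact (List.perm_cons_erase hcw').cons _
      have hc' := hc.perm hperm
      have := Z_perm ih (le_of_eq hn) hperm [] (by simpa using hc)
      simp only [List.nil_append] at this
      rw [this]
      have hnd := hc'.nodup
      rw [List.nodup_cons, List.nodup_cons, List.nodup_cons] at hnd
      have e1 : ∀ f : α → Fin 3, wt bs f * pin J s f =
          Y {a, b, c} f * (wt (bs.erase A) f * pin J s f) := by
        intro f
        rw [wt_erase hA, ← mul_assoc]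
        conv_lhs => rw [hAe]
        rw [← hAe]
      rw [Z_congr _ e1]
      have haw2 : a ∉ ((w.erase a).erase b).erase c := fun h =>
        hnd.1 (List.mem_cons_of_mem _ (List.mem_cons_of_mem _ h))
      have hbw2 : b ∉ ((w.erase a).erase b).erase c := fun h =>
        hnd.2.1 (List.mem_cons_of_mem _ h)
      rw [Z_eval3 (fun f => wt (bs.erase A) f * pin J s f) a b c _ h1 h2 h3 haw2 hbw2 hnd.2.2.1]
      · apply ih _ _ _ _ hcard'
        refine ⟨hnd.2.2.2, fun C hC => hc.card C (Finset.mem_of_mem_erase hC),
          fun C hC D hD => hc.disj C (Finset.mem_of_mem_erase hC) D (Finset.mem_of_mem_erase hD),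
          hc.inj, ?_, fun C hC => hc.one C (Finset.mem_of_mem_erase hC), ?_⟩
        · intro m hm h
          exact hc'.pinw m hm (List.mem_cons_of_mem _ (List.mem_cons_of_mem _
            (List.mem_cons_of_mem _ h)))
        · intro C hC x hx
          rcases hc'.cov C (Finset.mem_of_mem_erase hC) x hx with h | h
          · left
            rcases List.mem_cons.1 h with rfl | h
            · exact absurd hx (hnA C hC x haA)
            · rcases List.mem_cons.1 h with rfl | h
              · exact absurd hx (hnA C hC x hbA)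
              · rcases List.mem_cons.1 h with rfl | h
                · exact absurd hx (hnA C hC x hcA)
                · exact h
          · exact Or.inr h
      · intro f x
        show wt _ _ * pin _ _ _ = _
        rw [wt_ind _ a (fun C hC => hnA C hC a haA), pin_ind _ _ a]
        rintro m hm rfl
        exact hc.pinw m hm haw
      · intro f x
        show wt _ _ * pin _ _ _ = _
        rw [wt_ind _ b (fun C hC => hnA C hC b hbA), pin_ind _ _ b]
        rintro m hm rfl
        exact hc.pinw m hm hbw
      · intro f x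
        show wt _ _ * pin _ _ _ = _
        rw [wt_ind _ c (fun C hC => hnA C hC c hcA), pin_ind _ _ c]
        rintro m hm rfl
        exact hc.pinw m hm hcw

/-- **Existence form.** -/
theorem exists_colouring (J : Finset (Fin 3)) (s : Fin 3 → α) (bs : Finset (Finset α))
    (w : List α) (hc : Cfg J s bs w) :
    ∃ f : α → Fin 3, (∀ A ∈ bs, Set.InjOn f (A : Set α)) ∧ (∀ j ∈ J, f (s j) = j) ∧
      ∀ w₁ a b w₂, w = w₁ ++ a :: b :: w₂ → f a ≠ f b := by
  have h := main_parity bs.card J s bs w rfl hc
  have hne : Z (fun f => wt bs f * pin J s f) w ≠ 0 := by rw [h]; decide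
  unfold Z at hne
  obtain ⟨f, -, hf⟩ := Finset.exists_ne_zero_of_sum_ne_zero hne
  refine ⟨f, ?_, ?_, ?_⟩
  · intro A hA
    by_contra hcon
    apply hf
    have : wt bs f = 0 := by
      unfold wt
      apply Finset.prod_eq_zero hA
      unfold Y
      rw [if_neg hcon]
    show wt bs f * pin J s f * (om * P w f).trace = 0
    rw [this]; simp
  · intro j hj
    by_contra hcon
    apply hf
    have : pin J s f = 0 := by
      unfold pin
      apply Finset.prod_eq_zero hj
      rw [if_neg hcon]
    show wt bs f * pin J s f * (om * P w f).trace = 0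
    rw [this]; simp
  · rintro w₁ a b w₂ rfl e
    apply hf
    have : P (w₁ ++ a :: b :: w₂) f = 0 := by
      rw [P_append, P_cons, P_cons, e, ← mul_assoc (N (f b)), N_sq]; simp
    rw [this]; simp

end Pool.Agent.H61.CPT
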