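import Pool.Agent.H61.CPT.Exchange
import Pool.Agent.H61.CPT.Haxell

set_option autoImplicit false
set_option linter.unusedSectionVars false
set_option linter.unusedSimpArgs false

namespace Pool.Agent.H61.CPT

open Finset Function

variable {V : Type*} [Fintype V] [DecidableEq V] {C : Type*} [DecidableEq C]

open Classical in
/-- reachable components -/
noncomputable def RC [Fintype C] (b : V → ℕ) (κ : V → C) (σ₀ : Finset V × C) : Finset C :=
  univ.filter (fun D => ∃ τ, Relation.ReflTransGen (Step b κ) σ₀ τ ∧ τ.2 = D)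

lemma mem_RC [Fintype C] (b : V → ℕ) (κ : V → C) (σ₀ : Finset V × C) (D : C) :
    D ∈ RC b κ σ₀ ↔ ∃ τ, Relation.ReflTransGen (Step b κ) σ₀ τ ∧ τ.2 = D := by
  classical
  unfold RC
  simp only [Finset.mem_filter, mem_univ, true_and]

lemma region_count [Fintype C] {G : SimpleGraph V} {b : V → ℕ} {κ : V → C}
    (hκ : ∀ u v, G.Adj u v → κ u = κ v) {m : ℕ}
    (hm : ∀ I, IT G b I → (I.image κ).card ≤ m) {I₀ : Finset V} (hI : IT G b I₀)
    (hc : (I₀.image κ).card = m) (U : Finset C) (hU : ∀ D ∈ U, D ∉ I₀.image κ) :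
    let 𝒟 := U.biUnion (fun D => RC b κ (I₀, D))
    let S := (univ.filter (fun v => κ v ∈ 𝒟)).image b
    S.card + U.card ≤ 𝒟.card := by
  intro 𝒟 S
  have hUD : U ⊆ 𝒟 := by
    intro D hD
    refine Finset.mem_biUnion.2 ⟨D, hD, ?_⟩
    exact (mem_RC _ _ _ _).2 ⟨(I₀, D), Relation.ReflTransGen.refl, rfl⟩
  have F2 : ∀ r ∈ I₀, b r ∈ S → κ r ∈ 𝒟 := by
    intro r hr hbr
    obtain ⟨v, hv, e⟩ := Finset.mem_image.1 hbr
    have hv' := (Finset.mem_filter.1 hv).2
    obtain ⟨D1, hD1, hv2⟩ := Finset.mem_biUnion.1 hv'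
    obtain ⟨τ, hτ, e2⟩ := (mem_RC _ _ _ _).1 hv2
    obtain ⟨τ', h1, h2⟩ := rep_in_reach hτ e2.symm hτ Relation.ReflTransGen.refl r hr e.symm
    refine Finset.mem_biUnion.2 ⟨D1, hD1, ?_⟩
    exact (mem_RC _ _ _ _).2 ⟨τ', h1, h2⟩
  have F3 : ∀ r ∈ I₀, ∀ r' ∈ I₀, κ r = κ r' → κ r ∈ 𝒟 → r = r' := by
    intro r hr r' hr' e hD
    obtain ⟨D1, hD1, hv2⟩ := Finset.mem_biUnion.1 hD
    obtain ⟨τ, hτ, e2⟩ := (mem_RC _ _ _ _).1 hv2
    have hval : Valid G b κ m (I₀, D1) := ⟨hI, hU D1 hD1, hc⟩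
    exact unique_in_reach hκ hm (valid_reach hκ hm hval hτ) hτ hval r hr r' hr' e2.symm
      (e ▸ e2.symm)
  have hS1 : S.card ≤ (I₀.filter (fun r => b r ∈ S)).card := by
    have : S ⊆ (I₀.filter (fun r => b r ∈ S)).image b := by
      intro β hβ
      obtain ⟨v, hv, e⟩ := Finset.mem_image.1 hβ
      obtain ⟨r, hr, e2⟩ := hI.1 v
      refine Finset.mem_image.2 ⟨r, ?_, e2.trans e⟩
      rw [Finset.mem_filter]
      exact ⟨hr, by rw [e2, e]; exact hβ⟩
    exact (Finset.card_le_card this).trans Finset.card_image_le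
  have hS2 : (I₀.filter (fun r => b r ∈ S)).card ≤ (𝒟 \ U).card := by
    apply Finset.card_le_card_of_injOn κ
    · intro r hr
      have hr' := Finset.mem_filter.1 (Finset.mem_coe.1 hr)
      rw [Finset.mem_coe, Finset.mem_sdiff]
      exact ⟨F2 r hr'.1 hr'.2, fun h => hU _ h (Finset.mem_image_of_mem _ hr'.1)⟩
    · intro r hr r' hr' e
      have h1 := Finset.mem_filter.1 (Finset.mem_coe.1 hr)
      have h2 := Finset.mem_filter.1 (Finset.mem_coe.1 hr')
      exact F3 r h1.1 r' h2.1 e (F2 r h1.1 h1.2)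
  rw [Finset.card_sdiff_of_subset hUD] at hS2
  have := Finset.card_le_card hUD
  omega

/-- independent transversals exist -/
lemma exists_IT (G : SimpleGraph V) [DecidableRel G.Adj] (hdeg : ∀ v, G.degree v ≤ 2)
    (b : V → ℕ) (hblock : ∀ v, (univ.filter (fun w => b w = b v)).card = 4) :
    ∃ I, IT G b I := by
  classical
  let ι := {β : ℕ // β ∈ (univ : Finset V).image b}
  have hfib : ∀ i : ι, (univ.filter (fun w => b w = i.1)).card = 4 := by
    rintro ⟨β, hβ⟩
    obtain ⟨v, -, rfl⟩ := Finset.mem_image.1 hβ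
    exact hblock v
  let e : (i : ι) → Fin 4 → V := fun i s =>
    ((Finset.equivFinOfCardEq (hfib i)).symm s).1
  have he : ∀ i s, b (e i s) = i.1 := by
    intro i s
    have := ((Finset.equivFinOfCardEq (hfib i)).symm s).2
    exact (Finset.mem_filter.1 this).2
  have hinj : ∀ i s j t, e i s = e j t → i = j ∧ s = t := by
    intro i s j t h
    have h1 : i = j := by
      apply Subtype.ext
      rw [← he i s, ← he j t, h]
    subst h1
    refine ⟨rfl, ?_⟩
    have := Subtype.ext h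
    exact (Finset.equivFinOfCardEq (hfib i)).symm.injective this
  let adj : ι × Fin 4 → ι × Fin 4 → Prop := fun p q => G.Adj (e p.1 p.2) (e q.1 q.2)
  obtain ⟨f, hf⟩ := Haxell.finite (adj := adj) (fun p q h => SimpleGraph.Adj.symm h) (by
    intro K hK Z hZ
    by_contra hcon
    push Not at hcon
    -- all vertices in K-blocks adjacent to Z
    have h1 : (K ×ˢ (univ : Finset (Fin 4))).card ≤
        (Z.biUnion (fun z => G.neighborFinset (e z.1 z.2))).card := by
      apply Finset.card_le_card_of_injOn (fun p => e p.1 p.2)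
      · intro p hp
        rw [Finset.mem_coe, Finset.mem_product] at hp
        obtain ⟨z, hz, hadj⟩ := hcon p.1 hp.1 p.2
        rw [Finset.mem_coe, Finset.mem_biUnion]
        exact ⟨z, hz, by rw [SimpleGraph.mem_neighborFinset]; exact SimpleGraph.Adj.symm hadj⟩
      · rintro ⟨i, s⟩ _ ⟨j, t⟩ _ h
        obtain ⟨rfl, rfl⟩ := hinj i s j t h
        rfl
    have h2 : (Z.biUnion (fun z => G.neighborFinset (e z.1 z.2))).card ≤ Z.card * 2 := by
      apply Finset.card_biUnion_le_card_mul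
      intro z _
      rw [SimpleGraph.card_neighborFinset_eq_degree]
      exact hdeg _
    rw [Finset.card_product, Finset.card_univ, Fintype.card_fin] at h1
    have h3 : 0 < K.card := Finset.card_pos.2 hK
    omega) (univ : Finset ι)
  refine ⟨univ.image (fun i => e i (f i)), ?_, ?_, ?_⟩
  · intro v
    refine ⟨e ⟨b v, Finset.mem_image_of_mem _ (mem_univ _)⟩
      (f ⟨b v, Finset.mem_image_of_mem _ (mem_univ _)⟩), ?_, ?_⟩
    · exact Finset.mem_image_of_mem _ (mem_univ _)
    · exact he _ _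
  · intro r hr r' hr' h
    obtain ⟨i, -, rfl⟩ := Finset.mem_image.1 hr
    obtain ⟨j, -, rfl⟩ := Finset.mem_image.1 hr'
    have : i = j := by
      apply Subtype.ext
      rw [← he i (f i), ← he j (f j)]
      exact h
    rw [this]
  · intro r hr r' hr' h
    obtain ⟨i, -, rfl⟩ := Finset.mem_image.1 hr
    obtain ⟨j, -, rfl⟩ := Finset.mem_image.1 hr'
    by_cases hij : i = j
    · subst hij; exact G.irrefl h
    · exact hf i (mem_univ _) j (mem_univ _) hij h

lemma closed_comp (G : SimpleGraph V) (X : Finset V) (hX : ∀ v ∈ X, ∀ u, G.Adj v u → u ∈ X)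
    {x y : V} (hx : x ∈ X) (h : G.connectedComponentMk x = G.connectedComponentMk y) : y ∈ X := by
  obtain ⟨p⟩ := SimpleGraph.ConnectedComponent.eq.1 h
  induction p with
  | nil => exact hx
  | cons hadj _ ih =>
    exact ih (hX _ hx _ hadj) (SimpleGraph.ConnectedComponent.eq.2 ⟨by assumption⟩)

end Pool.Agent.H61.CPT
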