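import Pool.Agent.H61.CPT.Main

set_option autoImplicit false
set_option linter.unusedSectionVars false
set_option linter.unusedSimpArgs false

namespace Pool.Agent.H61.CPT

open Finset Function

variable {V : Type*} [Fintype V] [DecidableEq V]

lemma comp_card_ge (G : SimpleGraph V) [DecidableRel G.Adj] [DecidableEq G.ConnectedComponent]
    (hdeg : ∀ v, G.degree v = 2) (v : V) :
    3 ≤ (univ.filter (fun u => G.connectedComponentMk u = G.connectedComponentMk v)).card := by
  have h2 : (G.neighborFinset v).card = 2 := by
    rw [SimpleGraph.card_neighborFinset_eq_degree, hdeg]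
  obtain ⟨x, y, hxy, e⟩ := Finset.card_eq_two.1 h2
  have hvx : G.Adj v x := by
    rw [← SimpleGraph.mem_neighborFinset, e]; simp
  have hvy : G.Adj v y := by
    rw [← SimpleGraph.mem_neighborFinset, e]; simp
  have hsub : ({v, x, y} : Finset V) ⊆
      univ.filter (fun u => G.connectedComponentMk u = G.connectedComponentMk v) := by
    intro u hu
    simp only [Finset.mem_insert, Finset.mem_singleton] at hu
    rw [Finset.mem_filter]
    refine ⟨mem_univ _, ?_⟩
    rcases hu with rfl | rfl | rfl
    · rfl
    · exact (SimpleGraph.ConnectedComponent.connectedComponentMk_eq_of_adj hvx).symm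
    · exact (SimpleGraph.ConnectedComponent.connectedComponentMk_eq_of_adj hvy).symm
  have := Finset.card_le_card hsub
  rwa [Finset.card_eq_three.2 ⟨v, x, y, hvx.ne, hvy.ne, hxy, rfl⟩] at this

/-- few triangles imply the component condition. -/
theorem few_triangles (G : SimpleGraph V) [DecidableRel G.Adj] (hdeg : ∀ v, G.degree v = 2)
    (b : V → ℕ) (hblock : ∀ v, (univ.filter (fun w => b w = b v)).card = 4)
    (h7 : (G.cliqueFinset 3).card ≤ 7) (S : Finset ℕ) :
    {D : G.ConnectedComponent | ∀ v, G.connectedComponentMk v = D → b v ∈ S}.ncard ≤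
        S.card + 1 := by
  classical
  have : Finite G.ConnectedComponent := inferInstanceAs (Finite (Quot _))
  have : Fintype G.ConnectedComponent := Fintype.ofFinite _
  set κ : V → G.ConnectedComponent := G.connectedComponentMk with hκdef
  set 𝒟 : Finset G.ConnectedComponent := univ.filter (fun D => ∀ v, κ v = D → b v ∈ S) with h𝒟
  have hcoe : {D : G.ConnectedComponent | ∀ v, κ v = D → b v ∈ S} = (𝒟 : Set _) := by
    ext D; simp [h𝒟]
  rw [hcoe, Set.ncard_coe_finset]
  by_contra hcon
  push Not at hcon
  set sz : G.ConnectedComponent → ℕ := fun D => (univ.filter (fun u => κ u = D)).card with hsz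
  have hsum : ∑ D ∈ 𝒟, sz D ≤ 4 * S.card := by
    have h2 : ∑ D ∈ 𝒟, sz D = (univ.filter (fun u => κ u ∈ 𝒟)).card := by
      rw [Finset.card_eq_sum_card_fiberwise (f := κ) (t := 𝒟)]
      · apply Finset.sum_congr rfl
        intro D hD
        simp only [hsz]
        congr 1
        ext u
        simp only [Finset.mem_filter, mem_univ, true_and]
        constructor
        · rintro rfl; exact ⟨hD, rfl⟩
        · rintro ⟨-, h⟩; exact h
      · intro u hu
        exact (Finset.mem_filter.1 (Finset.mem_coe.1 hu)).2
    rw [h2]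
    have h3 : univ.filter (fun u => κ u ∈ 𝒟) ⊆
        S.biUnion (fun β => univ.filter (fun w => b w = β)) := by
      intro u hu
      rw [Finset.mem_biUnion]
      have h4 := (Finset.mem_filter.1 (Finset.mem_filter.1 hu).2).2
      exact ⟨b u, h4 u rfl, by simp⟩
    refine (Finset.card_le_card h3).trans ?_
    rw [mul_comm]
    apply Finset.card_biUnion_le_card_mul
    intro β _
    by_cases hβ : ∃ v, b v = β
    · obtain ⟨v, rfl⟩ := hβ
      exact (hblock v).le
    · push Not at hβ
      rw [Finset.filter_eq_empty_iff.2 (fun v _ => hβ v)]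
      simp
  -- sizes
  have hge : ∀ D, 3 ≤ sz D := by
    intro D
    obtain ⟨v, rfl⟩ := D.exists_rep
    exact comp_card_ge G hdeg v
  set T := 𝒟.filter (fun D => sz D = 3) with hT
  have hlow : 4 * 𝒟.card ≤ ∑ D ∈ 𝒟, sz D + T.card := by
    have h1 : ∑ D ∈ 𝒟, 4 ≤ ∑ D ∈ 𝒟, (sz D + if sz D = 3 then 1 else 0) := by
      apply Finset.sum_le_sum
      intro D _
      have := hge D
      split_ifs <;> omega
    rw [Finset.sum_const, Finset.sum_add_distrib, ← Finset.card_filter, smul_eq_mul] at h1
    rw [hT]
    omega
  have hTcard : T.card ≤ (G.cliqueFinset 3).card := by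
    apply Finset.card_le_card_of_injOn (fun D => univ.filter (fun u => κ u = D))
    · intro D hD
      have hD' := (Finset.mem_filter.1 (Finset.mem_coe.1 hD)).2
      obtain ⟨v, rfl⟩ := D.exists_rep
      obtain ⟨x, y, hvx, hvy, hxy, hall⟩ := comp_tri G hdeg v hD'.le
      rw [Finset.mem_coe, SimpleGraph.mem_cliqueFinset_iff, SimpleGraph.is3Clique_iff]
      refine ⟨v, x, y, hvx, hvy, hxy, ?_⟩
      ext u
      simp only [Finset.mem_filter, mem_univ, true_and, Finset.mem_insert, Finset.mem_singleton]
      constructor
      · intro h; exact hall u h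
      · rintro (rfl | rfl | rfl)
        · rfl
        · exact (SimpleGraph.ConnectedComponent.connectedComponentMk_eq_of_adj hvx).symm
        · exact (SimpleGraph.ConnectedComponent.connectedComponentMk_eq_of_adj hvy).symm
    · intro D _ E _ h
      obtain ⟨v, rfl⟩ := D.exists_rep
      have h' : univ.filter (fun u => κ u = κ v) = univ.filter (fun u => κ u = E) := h
      have : v ∈ univ.filter (fun u => κ u = E) := by
        rw [← h']
        simp
      exact (Finset.mem_filter.1 this).2
  omega

/-- **The theorem.** -/
theorem colorable_of (G : SimpleGraph V) [DecidableRel G.Adj] (hdeg : ∀ v, G.degree v = 2)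
    (b : V → ℕ) (hblock : ∀ v, (univ.filter (fun w => b w = b v)).card = 4)
    (hyp : (G.cliqueFinset 3).card ≤ 7 ∨ ∀ S : Finset ℕ,
      {D : G.ConnectedComponent | ∀ v ∈ D.supp, b v ∈ S}.ncard ≤ S.card + 1) :
    (G ⊔ SimpleGraph.fromRel (fun v w : V => b v = b w)).Colorable 4 := by
  rcases hyp with h | h
  · exact main_component G hdeg b hblock (few_triangles G hdeg b hblock h)
  · apply main_component G hdeg b hblock
    intro S
    exact h S

end Pool.Agent.H61.CPT
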