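import Pool.Agent.H61.CPT.Parity3

set_option autoImplicit false
set_option linter.unusedSectionVars false
set_option linter.unusedSimpArgs false

namespace Pool.Agent.H61.CPT

open Finset Function

variable {V : Type*} [Fintype V] [DecidableEq V]

/-- consecutive letters -/
def Consec (p q : V) (w : List V) : Prop := ∃ w₁ w₂, w = w₁ ++ p :: q :: w₂

lemma consec_insert {p q v : V} {l₁ l₂ : List V} (h : Consec p q (l₁ ++ l₂))
    (hne : ∀ l₁' l₂', l₁ = l₁' ++ [p] → l₂ = q :: l₂' → False) : Consec p q (l₁ ++ v :: l₂) := by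
  obtain ⟨w₁, w₂, e⟩ := h
  rw [List.append_eq_append_iff] at e
  rcases e with ⟨a', h1, h2⟩ | ⟨c', h1, h2⟩
  · -- w₁ = l₁ ++ a', l₂ = a' ++ p :: q :: w₂
    exact ⟨l₁ ++ v :: a', w₂, by rw [h2]; simp⟩
  · -- l₁ = w₁ ++ c', p :: q :: w₂ = c' ++ l₂
    rcases c' with _ | ⟨x, c'⟩
    · simp only [List.nil_append] at h2
      exact ⟨l₁ ++ [v], w₂, by rw [← h2]; simp⟩
    · rcases c' with _ | ⟨y, c'⟩
      · simp only [List.cons_append, List.nil_append, List.cons.injEq] at h2
        obtain ⟨rfl, h2⟩ := h2
        exact (hne w₁ w₂ h1 h2.symm).elim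
      · simp only [List.cons_append, List.cons.injEq] at h2
        obtain ⟨rfl, rfl, h2⟩ := h2
        exact ⟨w₁, c' ++ v :: l₂, by rw [h1]; simp⟩

/-- A linear ordering of a linear forest. -/
lemma exists_word (G : SimpleGraph V) [DecidableRel G.Adj] (hdeg : ∀ v, G.degree v ≤ 2)
    (n : ℕ) : ∀ (X : Finset V), X.card = n →
    (∀ Y ⊆ X, Y.Nonempty → ∃ v ∈ Y, (Y.filter (G.Adj v)).card ≤ 1) →
    ∃ w : List V, w.Nodup ∧ (∀ v, v ∈ w ↔ v ∈ X) ∧
      ∀ u v, u ∈ X → v ∈ X → G.Adj u v → Consec u v w ∨ Consec v u w := by
  induction n with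
  | zero =>
    intro X hX _
    rw [Finset.card_eq_zero] at hX
    subst hX
    exact ⟨[], by simp, by simp, by simp⟩
  | succ n ih =>
    intro X hX hY
    have hXne : X.Nonempty := Finset.card_pos.1 (by omega)
    obtain ⟨v, hv, hcard⟩ := hY X (Finset.Subset.refl _) hXne
    obtain ⟨w', hnd, hmem, hcon⟩ := ih (X.erase v) (by rw [Finset.card_erase_of_mem hv, hX]; rfl)
      (fun Y hYX hYne => hY Y (hYX.trans (Finset.erase_subset _ _)) hYne)
    have hvw : v ∉ w' := by rw [hmem]; simp
    by_cases hnb : ∃ u ∈ X, G.Adj v u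
    · obtain ⟨u, hu, huv⟩ := hnb
      have huniq : ∀ x ∈ X, G.Adj v x → x = u := by
        intro x hx hvx
        rw [Finset.card_le_one] at hcard
        exact hcard x (by simp [hx, hvx]) u (by simp [hu, huv])
      have hune : u ≠ v := huv.ne'
      have huw : u ∈ w' := by rw [hmem]; simp [hu, hune]
      obtain ⟨l₁, l₂, hw⟩ := List.append_of_mem huw
      -- choose the gap
      have hgap : ∃ m₁ m₂ : List V, w' = m₁ ++ m₂ ∧
          (∀ p q m₁' m₂', m₁ = m₁' ++ [p] → m₂ = q :: m₂' → ¬ G.Adj p q) ∧
          ((∃ m₁', m₁ = m₁' ++ [u]) ∨ (∃ m₂', m₂ = u :: m₂')) := by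
        by_cases hx : ∃ x l₂', l₂ = x :: l₂' ∧ G.Adj u x
        · obtain ⟨x, l₂', hl₂, hux⟩ := hx
          refine ⟨l₁, u :: l₂, hw, ?_, Or.inr ⟨l₂, rfl⟩⟩
          intro p q m₁' m₂' h1 h2 hpq
          simp only [List.cons.injEq] at h2
          obtain ⟨rfl, h2⟩ := h2
          -- u has neighbours v, x, p
          have hp : p ∈ w' := by rw [hw, h1]; simp
          have hxw : x ∈ w' := by rw [hw, hl₂]; simp
          have hpx : p ≠ x := by
            rintro rfl
            rw [hw, h1, hl₂] at hnd
            simp [List.nodup_append] at hnd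
          have hpv : p ≠ v := by rintro rfl; exact hvw hp
          have hxv : x ≠ v := by rintro rfl; exact hvw hxw
          have : ({v, x, p} : Finset V) ⊆ G.neighborFinset u := by
            intro y hy
            simp only [Finset.mem_insert, Finset.mem_singleton] at hy
            rw [SimpleGraph.mem_neighborFinset]
            rcases hy with rfl | rfl | rfl
            · exact huv.symm
            · exact hux
            · exact hpq.symm
          have h3 := Finset.card_le_card this
          rw [SimpleGraph.card_neighborFinset_eq_degree] at h3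
          have h4 : ({v, x, p} : Finset V).card = 3 :=
            Finset.card_eq_three.2 ⟨v, x, p, hxv.symm, hpv.symm, hpx.symm, rfl⟩
          have := hdeg u
          omega
        · refine ⟨l₁ ++ [u], l₂, by rw [hw]; simp, ?_, Or.inl ⟨l₁, rfl⟩⟩
          intro p q m₁' m₂' h1 h2 hpq
          have : p = u := by
            have := congrArg List.getLast? h1
            simpa using this.symm
          subst this
          exact hx ⟨q, m₂', h2, hpq⟩
      obtain ⟨m₁, m₂, hw2, hsep, hend⟩ := hgap
      refine ⟨m₁ ++ v :: m₂, ?_, ?_, ?_⟩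
      · rw [List.nodup_middle, List.nodup_cons, ← hw2]
        exact ⟨hvw, hnd⟩
      · intro x
        have := hmem x
        rw [hw2] at this
        simp only [List.mem_append, List.mem_cons, Finset.mem_erase] at this ⊢
        constructor
        · rintro (h | rfl | h)
          · exact (this.1 (Or.inl h)).2
          · exact hv
          · exact (this.1 (Or.inr h)).2
        · intro h
          by_cases hxv : x = v
          · exact Or.inr (Or.inl hxv)
          · rcases this.2 ⟨hxv, h⟩ with h | h
            · exact Or.inl h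
            · exact Or.inr (Or.inr h)
      · intro x y hx hy hxy
        have hbase : Consec u v (m₁ ++ v :: m₂) ∨ Consec v u (m₁ ++ v :: m₂) := by
          rcases hend with ⟨m₁', e⟩ | ⟨m₂', e⟩
          · left; exact ⟨m₁', m₂, by rw [e]; simp⟩
          · right; exact ⟨m₁, m₂', by rw [e]⟩
        by_cases hxv : x = v
        · subst hxv
          rw [huniq y hy hxy]
          exact hbase.symm
        · by_cases hyv : y = v
          · subst hyv
            rw [huniq x hx hxy.symm]
            exact hbase
          · rcases hcon x y (by simp [hx, hxv]) (by simp [hy, hyv]) hxy with h | h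
            · left
              rw [hw2] at h
              exact consec_insert h (fun a b h1 h2 => hsep x y a b h1 h2 hxy)
            · right
              rw [hw2] at h
              exact consec_insert h (fun a b h1 h2 => hsep y x a b h1 h2 hxy.symm)
    · push Not at hnb
      refine ⟨v :: w', ?_, ?_, ?_⟩
      · rw [List.nodup_cons]; exact ⟨hvw, hnd⟩
      · intro x
        have := hmem x
        simp only [List.mem_cons, this, Finset.mem_erase]
        constructor
        · rintro (rfl | h)
          · exact hv
          · exact h.2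
        · intro h
          by_cases hxv : x = v
          · exact Or.inl hxv
          · exact Or.inr ⟨hxv, h⟩
      · intro x y hx hy hxy
        have hxv : x ≠ v := by rintro rfl; exact hnb y hy hxy
        have hyv : y ≠ v := by rintro rfl; exact hnb x hx hxy.symm
        rcases hcon x y (by simp [hx, hxv]) (by simp [hy, hyv]) hxy with ⟨a, b, e⟩ | ⟨a, b, e⟩
        · left; exact ⟨v :: a, b, by rw [e]; simp⟩
        · right; exact ⟨v :: a, b, by rw [e]; simp⟩

/-- from a hitting property to the degeneracy property. -/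
lemma degenerate_of_hit (G : SimpleGraph V) [DecidableRel G.Adj] (hdeg : ∀ v, G.degree v ≤ 2)
    (S : Finset V) (hhit : ∀ X : Finset V, X.Nonempty → (∀ v ∈ X, ∀ u, G.Adj v u → u ∈ X) →
      ∃ x ∈ X, x ∈ S) :
    ∀ Y ⊆ univ \ S, Y.Nonempty → ∃ v ∈ Y, (Y.filter (G.Adj v)).card ≤ 1 := by
  intro Y hY hYne
  by_contra hcon
  push Not at hcon
  have hclosed : ∀ v ∈ Y, ∀ u, G.Adj v u → u ∈ Y := by
    intro v hv u huv
    have h1 := hcon v hv
    have h2 : Y.filter (G.Adj v) ⊆ G.neighborFinset v := by
      intro x hx
      rw [SimpleGraph.mem_neighborFinset]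
      exact (Finset.mem_filter.1 hx).2
    have h3 : Y.filter (G.Adj v) = G.neighborFinset v := by
      apply Finset.eq_of_subset_of_card_le h2
      rw [SimpleGraph.card_neighborFinset_eq_degree]
      have := hdeg v
      omega
    have h4 : u ∈ Y.filter (G.Adj v) := by
      rw [h3, SimpleGraph.mem_neighborFinset]; exact huv
    exact (Finset.mem_filter.1 h4).1
  obtain ⟨x, hx, hxS⟩ := hhit Y hYne hclosed
  have := hY hx
  rw [Finset.mem_sdiff] at this
  exact this.2 hxS

end Pool.Agent.H61.CPT
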